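import Mathlib
import Pool.Agent.H753R2.FR.Defs
import Pool.Agent.H753R2.FR.T_A1
import Pool.Agent.H753R2.FR.T_A2

set_option autoImplicit false
set_option linter.unusedSectionVars false

/-! Degrees, the measure `wG`, retractions of the vertex set and contractions. -/

namespace Pool.Agent.Y358.GC

open Finset Pool.Agent.H753R2.FR

section
variable {V I : Type} [DecidableEq V] [DecidableEq I] [Fintype V] [Fintype I]

/-- degree of `v` in the graph with the edges `S` (a loop counts twice) -/
def dg (G : MG V I) (S : Finset I) (v : V) : ℕ :=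
  (S.filter (fun e => G.x e = v)).card + (S.filter (fun e => G.y e = v)).card

/-- the measure: the sum of the numbers `deg v - 2` (truncated) -/
def wG (G : MG V I) (S : Finset I) : ℕ := ∑ v, (dg G S v - 2)

/-- the excess: the sum of the numbers `deg v - 3` (truncated) -/
def xG (G : MG V I) (S : Finset I) : ℕ := ∑ v, (dg G S v - 3)

/-- the graph obtained by moving every vertex `v` to `ρ v` -/
def mapG (ρ : V → V) (G : MG V I) : MG V I where
  x e := ρ (G.x e)
  y e := ρ (G.y e)

/-- all graphs with measure less than `w` have a nonnegative flow polynomial at `q` -/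
def Low (q : ℝ) (w : ℕ) : Prop :=
  ∀ (V I : Type) [DecidableEq V] [DecidableEq I] [Fintype V] [Fintype I] (G : MG V I)
    (S : Finset I), wG G S < w → 0 ≤ m G q ⊥ S

theorem dg_mono (G : MG V I) {S T : Finset I} (h : S ⊆ T) (v : V) : dg G S v ≤ dg G T v := by
  unfold dg
  exact add_le_add (card_le_card (filter_subset_filter _ h))
    (card_le_card (filter_subset_filter _ h))

theorem wG_mono (G : MG V I) {S T : Finset I} (h : S ⊆ T) : wG G S ≤ wG G T := by
  unfold wG
  exact sum_le_sum (fun v _ => Nat.sub_le_sub_right (dg_mono G h v) 2)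

theorem xG_mono (G : MG V I) {S T : Finset I} (h : S ⊆ T) : xG G S ≤ xG G T := by
  unfold xG
  exact sum_le_sum (fun v _ => Nat.sub_le_sub_right (dg_mono G h v) 3)

theorem dg_insert (G : MG V I) {S : Finset I} {e : I} (he : e ∉ S) (v : V) :
    dg G (insert e S) v = dg G S v + ((if G.x e = v then 1 else 0) + (if G.y e = v then 1 else 0)) := by
  unfold dg
  rw [filter_insert, filter_insert]
  have h1 : e ∉ S.filter (fun e => G.x e = v) := fun h => he (mem_filter.1 h).1
  have h2 : e ∉ S.filter (fun e => G.y e = v) := fun h => he (mem_filter.1 h).1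
  split_ifs with h3 h4 h4
  · rw [card_insert_of_notMem h1, card_insert_of_notMem h2]; omega
  · rw [card_insert_of_notMem h1]; omega
  · rw [card_insert_of_notMem h2]; omega
  · omega

theorem dg_eq_sum (G : MG V I) (S : Finset I) (v : V) :
    dg G S v = ∑ e ∈ S, ((if G.x e = v then 1 else 0) + (if G.y e = v then 1 else 0)) := by
  unfold dg
  rw [sum_add_distrib, card_filter, card_filter]

theorem dg_mapG (ρ : V → V) (G : MG V I) (S : Finset I) (v : V) :
    dg (mapG ρ G) S v = ∑ u ∈ univ.filter (fun u => ρ u = v), dg G S u := by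
  simp_rw [dg_eq_sum]
  rw [sum_comm]
  refine sum_congr rfl fun e _ => ?_
  rw [sum_add_distrib]
  simp only [mapG]
  congr 1
  · rw [sum_ite_eq (univ.filter (fun u => ρ u = v)) (G.x e) (fun _ => 1)]
    simp
  · rw [sum_ite_eq (univ.filter (fun u => ρ u = v)) (G.y e) (fun _ => 1)]
    simp

/-- retractions -/
def Ret (ρ : V → V) : Prop := ∀ v, ρ (ρ v) = ρ v

theorem ker_sup_conn {ρ : V → V} (hρ : Ret ρ) (G : MG V I) (A : Finset I) :
    Setoid.ker ρ ⊔ conn (mapG ρ G) A = Setoid.ker ρ ⊔ conn G A := by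
  have key : ∀ v : V, (Setoid.ker ρ) (ρ v) v := fun v => by
    show ρ (ρ v) = ρ v
    exact hρ v
  apply le_antisymm
  · refine sup_le le_sup_left ?_
    rw [conn_le_iff]
    intro e he
    have h1 : (Setoid.ker ρ ⊔ conn G A) (G.x e) (G.y e) :=
      (le_sup_right : conn G A ≤ Setoid.ker ρ ⊔ conn G A) ((conn_le_iff G).1 le_rfl e he)
    have h2 : ∀ v : V, (Setoid.ker ρ ⊔ conn G A) (ρ v) v := fun v =>
      (le_sup_left : Setoid.ker ρ ≤ Setoid.ker ρ ⊔ conn G A) (key v)
    exact (Setoid.ker ρ ⊔ conn G A).trans (h2 _)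
      ((Setoid.ker ρ ⊔ conn G A).trans h1 ((Setoid.ker ρ ⊔ conn G A).symm (h2 _)))
  · refine sup_le le_sup_left ?_
    rw [conn_le_iff]
    intro e he
    have h1 : (Setoid.ker ρ ⊔ conn (mapG ρ G) A) (ρ (G.x e)) (ρ (G.y e)) :=
      (le_sup_right : conn (mapG ρ G) A ≤ Setoid.ker ρ ⊔ conn (mapG ρ G) A)
        ((conn_le_iff (mapG ρ G)).1 le_rfl e he)
    have h2 : ∀ v : V, (Setoid.ker ρ ⊔ conn (mapG ρ G) A) (ρ v) v := fun v =>
      (le_sup_left : Setoid.ker ρ ≤ Setoid.ker ρ ⊔ conn (mapG ρ G) A) (key v)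
    exact (Setoid.ker ρ ⊔ conn (mapG ρ G) A).trans
      ((Setoid.ker ρ ⊔ conn (mapG ρ G) A).symm (h2 _))
      ((Setoid.ker ρ ⊔ conn (mapG ρ G) A).trans h1 (h2 _))

/-- gluing along a retraction is the same as moving the vertices, up to a power of `q` -/
theorem m_mapG {ρ : V → V} (hρ : Ret ρ) (G : MG V I) (q : ℝ) (A S : Finset I) :
    q ^ cl (⊥ : Setoid V) * m G q (Setoid.ker ρ ⊔ conn G A) S =
      q ^ cl (Setoid.ker ρ) * m (mapG ρ G) q (conn (mapG ρ G) A) S := by
  have h1 : m G q (Setoid.ker ρ ⊔ conn G A) S =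
      m (mapG ρ G) q (Setoid.ker ρ ⊔ conn (mapG ρ G) A) S := by
    unfold m
    refine sum_congr rfl fun B _ => ?_
    rw [sup_assoc, sup_assoc, ← conn_union, ← conn_union, ker_sup_conn hρ]
  rw [h1]
  have h2 := m_agree (mapG ρ G) q (U := Set.range ρ) (s := ⊥) (s' := Setoid.ker ρ)
    (r := conn (mapG ρ G) A) (O := S) ?_ ?_ ?_
  · rw [bot_sup_eq] at h2
    exact h2.symm
  · rintro _ ⟨a, rfl⟩ _ ⟨b, rfl⟩
    show ρ a = ρ b ↔ ρ (ρ a) = ρ (ρ b)
    rw [hρ, hρ]
  · rw [supp_iff, conn_le_iff]
    intro e _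
    exact Or.inr ⟨⟨_, rfl⟩, ⟨_, rfl⟩⟩
  · intro e _
    exact ⟨⟨_, rfl⟩, ⟨_, rfl⟩⟩

theorem neg_mapG {ρ : V → V} (hρ : Ret ρ) (G : MG V I) {q : ℝ} (hq : 0 < q) (A S : Finset I) :
    m G q (Setoid.ker ρ ⊔ conn G A) S < 0 ↔ m (mapG ρ G) q (conn (mapG ρ G) A) S < 0 := by
  have h1 := m_mapG hρ G q A S
  have h2 : 0 < q ^ cl (⊥ : Setoid V) := pow_pos hq _
  have h3 : 0 < q ^ cl (Setoid.ker ρ) := pow_pos hq _
  constructor
  · intro h
    by_contra hcon
    push Not at hcon
    have := mul_nonneg h3.le hcon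
    rw [← h1] at this
    have := mul_neg_of_pos_of_neg h2 h
    linarith
  · intro h
    by_contra hcon
    push Not at hcon
    have := mul_nonneg h2.le hcon
    rw [h1] at this
    have := mul_neg_of_pos_of_neg h3 h
    linarith

/-- move `b` to `a` -/
def mv (a b : V) (v : V) : V := if v = b then a else v

theorem ret_mv (a b : V) : Ret (mv a b) := by
  intro v
  unfold mv
  split_ifs with h1 h2 <;> simp_all

theorem ker_mv (a b : V) : Setoid.ker (mv a b) = pr a b := by
  ext c d
  show mv a b c = mv a b d ↔ (c = d ∨ ((c = a ∨ c = b) ∧ (d = a ∨ d = b)))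
  unfold mv
  split_ifs with h1 h2 h2
  · subst h1; subst h2; simp
  · subst h1
    constructor
    · intro h; exact Or.inr ⟨Or.inr rfl, Or.inl h.symm⟩
    · rintro (h | ⟨-, h | h⟩)
      · exact absurd h.symm h2
      · exact h.symm
      · exact absurd h h2
  · subst h2
    constructor
    · intro h; exact Or.inr ⟨Or.inl h, Or.inr rfl⟩
    · rintro (h | ⟨h | h, -⟩)
      · exact absurd h h1
      · exact h
      · exact absurd h h1
  · constructor
    · intro h; exact Or.inl h
    · rintro (h | ⟨h | h, h' | h'⟩)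
      · exact h
      · rw [h, h']
      · exact absurd h' h2
      · exact absurd h h1
      · exact absurd h h1

theorem dg_mv {a b : V} (hab : a ≠ b) (G : MG V I) (S : Finset I) (v : V) :
    dg (mapG (mv a b) G) S v = if v = b then 0 else if v = a then dg G S a + dg G S b else dg G S v := by
  rw [dg_mapG]
  split_ifs with h1 h2
  · rw [sum_eq_zero]
    intro u hu
    rw [mem_filter] at hu
    exfalso
    have h3 := hu.2
    unfold mv at h3
    split_ifs at h3 with h4
    · exact hab (h3.trans h1)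
    · exact h4 (h3.trans h1)
  · have h3 : univ.filter (fun u => mv a b u = v) = {a, b} := by
      ext u
      simp only [mem_filter, mem_univ, true_and, mem_insert, mem_singleton]
      unfold mv
      split_ifs with h4
      · simp [h4, h2]
      · constructor
        · intro h5; left; exact h5.trans h2
        · rintro (h5 | h5)
          · exact h5.trans h2.symm
          · exact absurd h5 h4
    rw [h3, sum_pair hab]
  · have h3 : univ.filter (fun u => mv a b u = v) = {v} := by
      ext u
      simp only [mem_filter, mem_univ, true_and, mem_singleton]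
      unfold mv
      split_ifs with h4
      · constructor
        · intro h5; exact absurd h5.symm h2
        · intro h5; exact absurd (h5.symm.trans h4) h1
      · exact Iff.rfl
    rw [h3, sum_singleton]

/-- one contraction does not increase a suitable sum -/
theorem sum_mv (f : ℕ → ℕ) (hf0 : f 0 = 0) (hf : Monotone f) (G : MG V I) {S : Finset I} {e : I}
    (he : e ∉ S)
    (hfab : f (dg G S (G.x e) + dg G S (G.y e)) ≤ f (dg G S (G.x e) + 1) + f (dg G S (G.y e) + 1)) :
    ∑ v, f (dg (mapG (mv (G.x e) (G.y e)) G) S v) ≤ ∑ v, f (dg G (insert e S) v) := by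
  by_cases hab : G.x e = G.y e
  · have h1 : mapG (mv (G.x e) (G.y e)) G = G := by
      have h2 : ∀ v, mv (G.x e) (G.y e) v = v := by
        intro v
        unfold mv
        split_ifs with h3
        · rw [hab, h3]
        · rfl
      unfold mapG
      simp only [h2]
    rw [h1]
    exact sum_le_sum (fun v _ => hf (dg_mono G (subset_insert e S) v))
  · have ha : G.x e ∈ (univ : Finset V) := mem_univ _
    have hb : G.y e ∈ (univ.erase (G.x e) : Finset V) :=
      mem_erase.2 ⟨fun h => hab h.symm, mem_univ _⟩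
    rw [← add_sum_erase _ _ ha, ← add_sum_erase _ _ hb, ← add_sum_erase univ _ ha,
      ← add_sum_erase _ _ hb]
    have e1 : dg (mapG (mv (G.x e) (G.y e)) G) S (G.x e) = dg G S (G.x e) + dg G S (G.y e) := by
      rw [dg_mv hab, if_neg hab, if_pos rfl]
    have e2 : dg (mapG (mv (G.x e) (G.y e)) G) S (G.y e) = 0 := by
      rw [dg_mv hab, if_pos rfl]
    have e3 : dg G (insert e S) (G.x e) = dg G S (G.x e) + 1 := by
      rw [dg_insert G he, if_pos rfl, if_neg (fun h => hab h.symm)]
    have e4 : dg G (insert e S) (G.y e) = dg G S (G.y e) + 1 := by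
      rw [dg_insert G he, if_neg hab, if_pos rfl]
    rw [e1, e2, e3, e4, hf0, zero_add, ← add_assoc]
    refine add_le_add hfab (sum_le_sum fun v hv => ?_)
    rw [mem_erase, mem_erase] at hv
    rw [dg_mv hab, if_neg hv.1, if_neg hv.2.1]
    exact hf (dg_mono G (subset_insert e S) v)

theorem wG_contract (G : MG V I) {S : Finset I} {e : I} (he : e ∉ S) :
    wG (mapG (mv (G.x e) (G.y e)) G) S ≤ wG G (insert e S) := by
  unfold wG
  exact sum_mv (fun n => n - 2) rfl (fun a b h => Nat.sub_le_sub_right h 2) G he (by omega)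

theorem xG_contract (G : MG V I) {S : Finset I} {e : I} (he : e ∉ S)
    (h2 : dg G S (G.x e) ≤ 1 ∨ dg G S (G.y e) ≤ 1) :
    xG (mapG (mv (G.x e) (G.y e)) G) S ≤ xG G (insert e S) := by
  unfold xG
  exact sum_mv (fun n => n - 3) rfl (fun a b h => Nat.sub_le_sub_right h 3) G he (by omega)

/-- a negative minor gives a negative graph with no larger measure -/
theorem neg_minor {q : ℝ} (hq : 0 < q) (A : Finset I) :
    ∀ (G : MG V I) (S : Finset I), Disjoint A S → m G q (conn G A) S < 0 →
      ∃ G' : MG V I, m G' q ⊥ S < 0 ∧ wG G' S ≤ wG G (A ∪ S) := by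
  induction A using Finset.induction_on with
  | empty =>
    intro G S _ h
    rw [conn_empty] at h
    exact ⟨G, h, by rw [empty_union]⟩
  | insert e A he ih =>
    intro G S hd h
    rw [disjoint_insert_left] at hd
    have heS : e ∉ A ∪ S := by rw [mem_union]; tauto
    have h1 : m G q (Setoid.ker (mv (G.x e) (G.y e)) ⊔ conn G A) S < 0 := by
      rw [ker_mv, sup_comm, ← conn_insert]
      exact h
    rw [neg_mapG (ret_mv _ _) G hq] at h1
    obtain ⟨G', h2, h3⟩ := ih _ S hd.2 h1
    refine ⟨G', h2, h3.trans ?_⟩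
    rw [insert_union]
    exact wG_contract G heS

/-- in a cubic graph removing an edge decreases the measure -/
theorem wG_lt (G : MG V I) (hG : ∀ v, dg G univ v = 3) {S : Finset I} (hS : S ≠ univ) :
    wG G S < Fintype.card V := by
  obtain ⟨e, he⟩ : ∃ e, e ∉ S := by
    by_contra hcon
    push Not at hcon
    exact hS (eq_univ_iff_forall.2 hcon)
  have h1 : Fintype.card V = ∑ v : V, 1 := by simp
  rw [h1]
  unfold wG
  apply sum_lt_sum
  · intro v _
    have := dg_mono G (subset_univ S) v
    rw [hG v] at this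
    omega
  · refine ⟨G.x e, mem_univ _, ?_⟩
    have h2 := dg_mono G (subset_univ (insert e S)) (G.x e)
    rw [hG, dg_insert G he, if_pos rfl] at h2
    omega

theorem wG_cubic (G : MG V I) (hG : ∀ v, dg G univ v = 3) : wG G univ = Fintype.card V := by
  unfold wG
  simp [hG]

/-- in a minimal cubic graph the minors are nonnegative -/
theorem nn_minor {q : ℝ} (hq : 0 < q) (G : MG V I) (hG : ∀ v, dg G univ v = 3)
    (hlow : Low q (Fintype.card V)) (A S : Finset I) (hd : Disjoint A S) (hAS : A ∪ S ≠ univ) :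
    0 ≤ m G q (conn G A) S := by
  by_contra hcon
  push Not at hcon
  obtain ⟨G', h1, h2⟩ := neg_minor hq A G S hd hcon
  have h3 := hlow V I G' S (lt_of_le_of_lt h2 (wG_lt G hG hAS))
  linarith

end

end Pool.Agent.Y358.GC
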