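import Mathlib
import Pool.Agent.Y358.GC.Basic
import Pool.Agent.TH325.FR.Moore

set_option autoImplicit false
set_option linter.unusedSectionVars false

/-! No short circuits in a minimal negative cubic graph. -/

namespace Pool.Agent.Y358.GC

open Finset Pool.Agent.H753R2.FR Pool.Agent.TH325.FR

section
variable {V I : Type} [DecidableEq V] [DecidableEq I] [Fintype V] [Fintype I]

theorem step_eq (G : MG V I) (r : Setoid V) (e : I) (B : Finset I) :
    r ⊔ pr (G.x e) (G.y e) ⊔ conn G B = r ⊔ conn G (insert e B) := by
  rw [conn_insert, sup_assoc, sup_comm (pr (G.x e) (G.y e)) (conn G B)]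

theorem le_ctr (G : MG V I) {q : ℝ} (hq : 1 < q) (C : Finset I) :
    ∀ (r : Setoid V) (S : Finset I), Disjoint C S →
      (∀ B S', B ⊆ C → S' ⊆ C ∪ S → Disjoint B S' → 0 ≤ m G q (r ⊔ conn G B) S') →
      m G q r (C ∪ S) ≤ (1 + 1 / (q - 1)) ^ C.card * m G q (r ⊔ conn G C) S := by
  have hp : 0 < 1 / (q - 1) := by
    have : 0 < q - 1 := by linarith
    positivity
  induction C using Finset.induction_on with
  | empty =>
    intro r S _ _
    rw [empty_union, conn_empty, sup_bot_eq]
    simp
  | insert e C he ih =>
    intro r S hd hn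
    rw [disjoint_insert_left] at hd
    have heS : e ∉ C ∪ S := by
      rw [mem_union]; tauto
    rw [insert_union, m_insert G q heS, card_insert_of_notMem he]
    have h1 : 0 ≤ m G q r (C ∪ S) := by
      have := hn ∅ (C ∪ S) (empty_subset _) (by rw [insert_union]; exact subset_insert _ _)
        (disjoint_empty_left _)
      rwa [conn_empty, sup_bot_eq] at this
    have h2 := ih (r ⊔ pr (G.x e) (G.y e)) S hd.2 (fun B S' hB hS hBS => by
      rw [step_eq]
      exact hn _ S' (insert_subset_insert e hB)
        (hS.trans (by rw [insert_union]; exact subset_insert _ _))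
        (by rw [disjoint_insert_left]; exact ⟨fun h => heS (hS h), hBS⟩))
    rw [step_eq] at h2
    have h4 : 0 ≤ 1 / (q - 1) * m G q r (C ∪ S) := mul_nonneg hp.le h1
    calc (1 + 1 / (q - 1)) * m G q (r ⊔ pr (G.x e) (G.y e)) (C ∪ S) - 1 / (q - 1) * m G q r (C ∪ S)
        ≤ (1 + 1 / (q - 1)) * m G q (r ⊔ pr (G.x e) (G.y e)) (C ∪ S) := by linarith
      _ ≤ (1 + 1 / (q - 1)) * ((1 + 1 / (q - 1)) ^ C.card * m G q (r ⊔ conn G (insert e C)) S) :=
          mul_le_mul_of_nonneg_left h2 (by linarith)
      _ = _ := by rw [pow_succ]; ring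

theorem circ_low (G : MG V I) {q : ℝ} (hq : 1 < q) (C : Finset I) (hC : C.Nonempty) :
    ∀ (r : Setoid V) (S : Finset I), Disjoint C S → Circ G r C →
      (∀ B S', B ⊆ C → S' ⊆ C ∪ S → Disjoint B S' → B ∪ S' ≠ C ∪ S →
        0 ≤ m G q (r ⊔ conn G B) S') →
      (1 + 1 / (q - 1)) ^ (C.card - 1) * (1 - (C.card - 1 : ℝ) * (1 / (q - 1))) *
        m G q (r ⊔ conn G C) S ≤ m G q r (C ∪ S) := by
  have hp : 0 < 1 / (q - 1) := by
    have : 0 < q - 1 := by linarith
    positivity
  induction hC using Finset.Nonempty.cons_induction with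
  | singleton e =>
    intro r S hd hcirc _
    have h1 := hcirc e (mem_singleton_self e)
    rw [erase_singleton, conn_empty, sup_bot_eq] at h1
    have h2 : conn G {e} = pr (G.x e) (G.y e) := by
      have := conn_insert G e ∅
      rw [conn_empty, bot_sup_eq] at this
      simpa using this
    have h3 : r ⊔ conn G {e} = r := by
      rw [h2]; exact sup_eq_left.mpr (pr_le_iff.mpr h1)
    rw [h3, union_comm, m_loops G q r (S := {e}) (O := S) (by
      intro e' he'
      rw [mem_singleton] at he'
      rw [he']; exact h1)]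
    simp
  | cons e C he hC ih =>
    intro r S hd hcirc hn
    rw [cons_eq_insert] at *
    rw [disjoint_insert_left] at hd
    have heS : e ∉ C ∪ S := by
      rw [mem_union]; tauto
    have hcard : (insert e C).card = C.card + 1 := card_insert_of_notMem he
    have hCpos : 1 ≤ C.card := hC.card_pos
    -- upper bound for the deletion
    have hup := le_ctr G hq C r S hd.2 (fun B S' hB hS hBS =>
      hn B S' (hB.trans (subset_insert e C))
        (hS.trans (by rw [insert_union]; exact subset_insert _ _)) hBS (by
          intro h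
          have h1 : e ∈ B ∪ S' := by rw [h, insert_union]; exact mem_insert_self _ _
          rcases mem_union.1 h1 with h2 | h2
          · exact he (hB h2)
          · exact heS (hS h2)))
    have h1 : r ⊔ conn G C = r ⊔ conn G (insert e C) := by
      have h2 := hcirc e (mem_insert_self e C)
      rw [erase_insert he] at h2
      rw [conn_insert, ← sup_assoc]
      exact (sup_eq_left.mpr (pr_le_iff.mpr h2)).symm
    rw [h1] at hup
    -- lower bound for the contraction
    have hlow := ih (r ⊔ pr (G.x e) (G.y e)) S hd.2 (by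
      intro f hf
      have h2 := hcirc f (mem_insert_of_mem hf)
      have hfe : e ≠ f := fun h => he (h ▸ hf)
      rw [erase_insert_of_ne hfe, ← step_eq] at h2
      exact h2)
      (fun B S' hB hS hBS hne => by
        rw [step_eq]
        refine hn _ S' (insert_subset_insert e hB)
          (hS.trans (by rw [insert_union]; exact subset_insert _ _))
          (by rw [disjoint_insert_left]; exact ⟨fun h => heS (hS h), hBS⟩) ?_
        intro h
        apply hne
        rw [insert_union, insert_union] at h
        have h2 : e ∉ B ∪ S' := fun h3 => by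
          rcases mem_union.1 h3 with h4 | h4
          · exact he (hB h4)
          · exact heS (hS h4)
        have h5 : (insert e (B ∪ S')).erase e = (insert e (C ∪ S)).erase e := by rw [h]
        rwa [erase_insert h2, erase_insert heS] at h5)
    rw [step_eq] at hlow
    rw [insert_union, m_insert G q heS, hcard]
    set p := 1 / (q - 1) with hpdef
    set T := m G q (r ⊔ conn G (insert e C)) S with hT
    have h4 : (1 + p) * ((1 + p) ^ (C.card - 1) * (1 - (C.card - 1 : ℝ) * p) * T) -
        p * ((1 + p) ^ C.card * T) =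
        (1 + p) ^ (C.card + 1 - 1) * (1 - ((C.card + 1 : ℕ) - 1 : ℝ) * p) * T := by
      have h5 : (1 + p) ^ C.card = (1 + p) ^ (C.card - 1) * (1 + p) := by
        rw [← pow_succ]; congr 1; omega
      rw [Nat.add_sub_cancel, h5]
      push_cast
      ring
    rw [← h4]
    have h6 := mul_le_mul_of_nonneg_left hlow (by linarith : (0 : ℝ) ≤ 1 + p)
    have h7 := mul_le_mul_of_nonneg_left hup hp.le
    linarith

/-- the minor in which a dependent set is contracted is nonnegative -/
theorem nn_dep {q : ℝ} (hq : 0 < q) (G : MG V I) (hG : ∀ v, dg G univ v = 3)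
    (hlow : Low q (Fintype.card V)) (A S : Finset I) (hd : Disjoint A S) (hA : Dep G A) :
    0 ≤ m G q (conn G A) S := by
  obtain ⟨e, he, hc⟩ := hA
  have h1 : conn G A = conn G (A.erase e) := by
    have h2 := conn_insert G e (A.erase e)
    rw [insert_erase he] at h2
    rw [h2]
    exact sup_eq_left.mpr (pr_le_iff.mpr hc)
  rw [h1]
  apply nn_minor hq G hG hlow _ _ (hd.mono_left (erase_subset _ _))
  intro h
  have h2 : e ∈ A.erase e ∪ S := by rw [h]; exact mem_univ _
  rcases mem_union.1 h2 with h3 | h3
  · exact (mem_erase.1 h3).1 rfl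
  · exact (disjoint_left.1 hd he) h3

/-- a dependent set has at least `q` elements -/
theorem long_circuits {q : ℝ} (hq : 1 < q) (G : MG V I) (hG : ∀ v, dg G univ v = 3)
    (hlow : Low q (Fintype.card V)) (hneg : m G q ⊥ univ < 0) (U : Finset I) (hU : Dep G U) :
    q < U.card := by
  by_contra hcon
  push Not at hcon
  obtain ⟨C, hCU, hC, hcirc⟩ := exists_circ G U hU
  have hq0 : 0 < q := by linarith
  have hCq : (C.card : ℝ) ≤ q := le_trans (by exact_mod_cast card_le_card hCU) hcon
  have hu : C ∪ (univ \ C) = univ := Finset.union_sdiff_of_subset (subset_univ C)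
  have h1 := circ_low G hq C hC ⊥ (univ \ C) disjoint_sdiff hcirc (by
    intro B S' _ _ hBS hne
    rw [bot_sup_eq]
    apply nn_minor hq0 G hG hlow _ _ hBS
    rwa [hu] at hne)
  rw [hu, bot_sup_eq] at h1
  have hdC : Dep G C := by
    obtain ⟨e, he⟩ := hC
    have := hcirc e he
    rw [bot_sup_eq] at this
    exact ⟨e, he, this⟩
  have hT := nn_dep hq0 G hG hlow C (univ \ C) disjoint_sdiff hdC
  have hq1 : 0 < q - 1 := by linarith
  have h3 : 0 ≤ 1 - ((C.card : ℝ) - 1) * (1 / (q - 1)) := by
    rw [mul_one_div, sub_nonneg, div_le_one hq1]; linarith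
  have h4 : 0 < (1 + 1 / (q - 1)) ^ (C.card - 1) := by positivity
  have h5 := mul_nonneg (mul_nonneg h4.le h3) hT
  linarith

end

end Pool.Agent.Y358.GC
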