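import Mathlib
import Pool.Agent.Y358.GC.Basic

set_option autoImplicit false
set_option linter.unusedSectionVars false

/-! Edge cuts with at most three edges in a minimal negative cubic graph. -/

namespace Pool.Agent.Y358.GC

open Finset Pool.Agent.H753R2.FR

section
variable {V I : Type} [DecidableEq V] [DecidableEq I] [Fintype V] [Fintype I]

/-- the numbers of the multigraphs with two vertices -/
noncomputable def kap (q : ℝ) : ℕ → ℝ
  | 0 => q
  | n + 1 => (1 + 1 / (q - 1)) - 1 / (q - 1) * kap q n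

theorem m_parallel (G : MG V I) {q : ℝ} {r : Setoid V} {a b : V} (hab : ¬ r a b) (T : Finset I)
    (hT : ∀ e ∈ T, (r (G.x e) a ∧ r (G.y e) b) ∨ (r (G.x e) b ∧ r (G.y e) a)) :
    m G q r T = q ^ cl (r ⊔ pr a b) * kap q T.card := by
  induction T using Finset.induction_on with
  | empty =>
    rw [m_empty, card_empty, kap, ← cl_sup_pr_of_not hab, pow_succ]
  | insert e T he ih =>
    have ih' := ih (fun f hf => hT f (mem_insert_of_mem hf))
    have h1 : r ⊔ pr (G.x e) (G.y e) = r ⊔ pr a b := by
      have h2 := hT e (mem_insert_self e T)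
      apply le_antisymm
      · refine sup_le le_sup_left ?_
        rw [pr_le_iff, sup_pr_iff]
        rcases h2 with ⟨h3, h4⟩ | ⟨h3, h4⟩
        · exact Or.inr (Or.inl ⟨h3, r.symm h4⟩)
        · exact Or.inr (Or.inr ⟨h3, r.symm h4⟩)
      · refine sup_le le_sup_left ?_
        rw [pr_le_iff, sup_pr_iff]
        rcases h2 with ⟨h3, h4⟩ | ⟨h3, h4⟩
        · exact Or.inr (Or.inl ⟨r.symm h3, h4⟩)
        · exact Or.inr (Or.inr ⟨r.symm h4, h3⟩)
    have h5 : m G q (r ⊔ pr a b) T = q ^ cl (r ⊔ pr a b) := by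
      have h6 := m_loops G q (r ⊔ pr a b) (S := T) (O := ∅) (fun f hf => by
        rw [sup_pr_iff]
        rcases hT f (mem_insert_of_mem hf) with ⟨h3, h4⟩ | ⟨h3, h4⟩
        · exact Or.inr (Or.inl ⟨h3, r.symm h4⟩)
        · exact Or.inr (Or.inr ⟨h3, r.symm h4⟩))
      rw [empty_union, m_empty] at h6
      exact h6
    rw [m_insert G q he, h1, h5, ih', card_insert_of_notMem he, kap]
    ring

theorem kap_pos {q : ℝ} (hq : 2 < q) {t : ℕ} (ht : t ≤ 3) (ht1 : t ≠ 1) : 0 < kap q t := by
  have hq1 : 0 < q - 1 := by linarith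
  have h1 : 1 / (q - 1) < 1 := by rw [div_lt_one hq1]; linarith
  have hp : 0 < 1 / (q - 1) := by positivity
  have h2 : 1 / (q - 1) * (q - 1) = 1 := by field_simp
  have k1 : kap q 1 = 0 := by
    rw [kap, kap]
    have : 1 + 1 / (q - 1) - 1 / (q - 1) * q = 1 - 1 / (q - 1) * (q - 1) := by ring
    rw [this, h2, sub_self]
  have k2 : kap q 2 = 1 + 1 / (q - 1) := by
    rw [kap, k1]; ring
  have k3 : kap q 3 = (1 + 1 / (q - 1)) * (1 - 1 / (q - 1)) := by
    rw [kap, k2]; ring
  interval_cases t
  · rw [kap]; linarith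
  · exact absurd rfl ht1
  · rw [k2]; linarith
  · rw [k3]; exact mul_pos (by linarith) (by linarith)

/-- the end in `X` -/
def nx (G : MG V I) (X : Finset V) (e : I) : V := if G.x e ∈ X then G.x e else G.y e

/-- the other end -/
def ny (G : MG V I) (X : Finset V) (e : I) : V := if G.x e ∈ X then G.y e else G.x e

theorem mem_cut {G : MG V I} {X : Finset V} {e : I} :
    e ∈ cut G X Xᶜ ↔ (G.x e ∈ X ∧ G.y e ∉ X) ∨ (G.x e ∉ X ∧ G.y e ∈ X) := by
  unfold cut
  simp only [mem_filter, mem_univ, true_and, mem_compl]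

theorem nx_mem {G : MG V I} {X : Finset V} {e : I} (he : e ∈ cut G X Xᶜ) : nx G X e ∈ X := by
  rw [mem_cut] at he
  unfold nx
  split_ifs with h
  · exact h
  · tauto

theorem ny_notMem {G : MG V I} {X : Finset V} {e : I} (he : e ∈ cut G X Xᶜ) : ny G X e ∉ X := by
  rw [mem_cut] at he
  unfold ny
  split_ifs with h
  · tauto
  · exact h

theorem nx_ny (G : MG V I) (X : Finset V) (e : I) :
    (G.x e = nx G X e ∧ G.y e = ny G X e) ∨ (G.x e = ny G X e ∧ G.y e = nx G X e) := by
  unfold nx ny
  split_ifs with h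
  · exact Or.inl ⟨rfl, rfl⟩
  · exact Or.inr ⟨rfl, rfl⟩

/-- a set `A` of edges inside `X` which does not connect the ends of the cut gives zero -/
theorem zero_of_not (G : MG V I) {q : ℝ} (hq : 1 < q) {X : Finset V}
    (hT : (cut G X Xᶜ).card ≤ 3) {A : Finset I} (hA : A ⊆ E G X) {r₂ : Setoid V}
    (hr₂ : Supp ((Xᶜ : Finset V) : Set V) r₂) {S₂ : Finset I} (hS₂ : S₂ ⊆ E G Xᶜ)
    (hn : ¬ mg ((cut G X Xᶜ).image (nx G X)) ≤ conn G A) :
    m G q (r₂ ⊔ conn G A) (S₂ ∪ cut G X Xᶜ) = 0 := by
  classical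
  have hsupp := supp_conn G hA
  have hnX : ∀ v, v ∉ X → ∀ u ∈ X, ¬ conn G A v u := by
    intro v hv u hu h
    rcases hsupp v u h with h1 | h1
    · exact hv (h1 ▸ hu)
    · exact hv (by exact_mod_cast h1.1)
  -- an edge alone in its class
  obtain ⟨e, he, halone⟩ : ∃ e ∈ cut G X Xᶜ, ∀ f ∈ cut G X Xᶜ, f ≠ e →
      ¬ conn G A (nx G X f) (nx G X e) := by
    by_contra hcon
    push Not at hcon
    apply hn
    rw [mg_le_iff]
    by_contra hcon2
    push Not at hcon2
    obtain ⟨a, ha, b, hb, hab⟩ := hcon2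
    rw [mem_image] at ha hb
    obtain ⟨e₁, he₁, rfl⟩ := ha
    obtain ⟨e₂, he₂, rfl⟩ := hb
    obtain ⟨f₁, hf₁, hfe₁, hc₁⟩ := hcon e₁ he₁
    obtain ⟨f₂, hf₂, hfe₂, hc₂⟩ := hcon e₂ he₂
    have n12 : e₁ ≠ e₂ := by
      rintro rfl
      exact hab ((conn G A).refl _)
    have n1 : f₁ ≠ e₂ := by
      rintro rfl
      exact hab ((conn G A).symm hc₁)
    have n2 : f₂ ≠ e₁ := by
      rintro rfl
      exact hab hc₂
    have h3 : ({e₁, e₂, f₁} : Finset I) = cut G X Xᶜ := by
      apply eq_of_subset_of_card_le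
      · intro z hz
        simp only [mem_insert, mem_singleton] at hz
        rcases hz with rfl | rfl | rfl <;> assumption
      · have : ({e₁, e₂, f₁} : Finset I).card = 3 := by
          rw [card_insert_of_notMem, card_insert_of_notMem, card_singleton]
          · simp [Ne.symm n1]
          · simp [n12, Ne.symm hfe₁]
        omega
    rw [← h3] at hf₂
    simp only [mem_insert, mem_singleton] at hf₂
    rcases hf₂ with h4 | h4 | h4
    · exact n2 h4
    · exact hfe₂ h4
    · rw [h4] at hc₂
      exact hab ((conn G A).trans ((conn G A).symm hc₁) hc₂)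
  have heS : e ∈ S₂ ∪ cut G X Xᶜ := mem_union_right _ he
  rw [← insert_erase heS]
  apply m_bridge G q hq (notMem_erase _ _)
  intro hbr
  let Q : Setoid V := Setoid.ker (fun v => conn G A v (nx G X e))
  have hX := nx_mem he
  have hQ : r₂ ⊔ conn G A ⊔ conn G ((S₂ ∪ cut G X Xᶜ).erase e) ≤ Q := by
    refine sup_le (sup_le ?_ ?_) ?_
    · intro a b hab
      show (conn G A a (nx G X e)) = (conn G A b (nx G X e))
      rcases hr₂ a b hab with rfl | ⟨h1, h2⟩
      · rfl
      · have h1' : a ∉ X := by simpa using h1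
        have h2' : b ∉ X := by simpa using h2
        exact propext ⟨fun h => absurd h (hnX a h1' _ hX), fun h => absurd h (hnX b h2' _ hX)⟩
    · intro a b hab
      show (conn G A a (nx G X e)) = (conn G A b (nx G X e))
      exact propext ⟨fun h => (conn G A).trans ((conn G A).symm hab) h,
        fun h => (conn G A).trans hab h⟩
    · rw [conn_le_iff]
      intro f hf
      rw [mem_erase, mem_union] at hf
      have hneither : ¬ conn G A (G.x f) (nx G X e) ∧ ¬ conn G A (G.y f) (nx G X e) := by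
        rcases hf.2 with h1 | h1
        · have h2 := hS₂ h1
          unfold E at h2
          rw [mem_filter, mem_compl, mem_compl] at h2
          exact ⟨hnX _ h2.2.1 _ hX, hnX _ h2.2.2 _ hX⟩
        · have h2 := halone f h1 hf.1
          have h3 := hnX _ (ny_notMem h1) _ hX
          rcases nx_ny G X f with ⟨h4, h5⟩ | ⟨h4, h5⟩
          · rw [h4, h5]; exact ⟨h2, h3⟩
          · rw [h4, h5]; exact ⟨h3, h2⟩
      show (conn G A (G.x f) (nx G X e)) = (conn G A (G.y f) (nx G X e))
      exact propext ⟨fun h => absurd h hneither.1, fun h => absurd h hneither.2⟩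
  have h1 : (conn G A (G.x e) (nx G X e)) = (conn G A (G.y e) (nx G X e)) := hQ hbr
  have h3 := hnX _ (ny_notMem he) _ hX
  rcases nx_ny G X e with ⟨h4, h5⟩ | ⟨h4, h5⟩
  · rw [h4, h5] at h1
    exact h3 (h1 ▸ (conn G A).refl _)
  · rw [h4, h5] at h1
    exact h3 (h1.symm ▸ (conn G A).refl _)

open Classical in
/-- the contribution of the side `X` -/
noncomputable def c1 (G : MG V I) (q : ℝ) (X : Finset V) : ℝ :=
  ∑ A ∈ (E G X).powerset, if mg ((cut G X Xᶜ).image (nx G X)) ≤ conn G A then
    wt q (E G X) A * q ^ cl (conn G A) else 0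

theorem side_formula (G : MG V I) {q : ℝ} (hq : 1 < q) {X : Finset V}
    (hT : (cut G X Xᶜ).card ≤ 3) {r₂ : Setoid V}
    (hr₂ : Supp ((Xᶜ : Finset V) : Set V) r₂) {S₂ : Finset I} (hS₂ : S₂ ⊆ E G Xᶜ) :
    q ^ cl (mg ((cut G X Xᶜ).image (nx G X))) * m G q r₂ (E G X ∪ (S₂ ∪ cut G X Xᶜ)) =
      c1 G q X * m G q (mg ((cut G X Xᶜ).image (nx G X)) ⊔ r₂) (S₂ ∪ cut G X Xᶜ) := by
  classical
  have hd : Disjoint (E G X) (S₂ ∪ cut G X Xᶜ) := by
    rw [disjoint_left]
    intro e he h
    unfold E at he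
    rw [mem_filter] at he
    rcases mem_union.1 h with h1 | h1
    · have h2 := hS₂ h1
      unfold E at h2
      rw [mem_filter, mem_compl, mem_compl] at h2
      exact h2.2.1 he.2.1
    · rw [mem_cut] at h1
      tauto
  rw [m_union G q hd, mul_sum, c1, sum_mul]
  refine sum_congr rfl fun A hA => ?_
  rw [mem_powerset] at hA
  split_ifs with h
  · have h1 := m_agree G q (U := ((cut G X Xᶜ).image (nx G X) : Set V) ∪ ((Xᶜ : Finset V) : Set V))
      (s := conn G A) (s' := mg ((cut G X Xᶜ).image (nx G X))) (r := r₂)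
      (O := S₂ ∪ cut G X Xᶜ) ?_ ?_ ?_
    · rw [sup_comm r₂ (conn G A)]
      calc q ^ cl (mg ((cut G X Xᶜ).image (nx G X))) *
            (wt q (E G X) A * m G q (conn G A ⊔ r₂) (S₂ ∪ cut G X Xᶜ))
          = wt q (E G X) A * (q ^ cl (mg ((cut G X Xᶜ).image (nx G X))) *
              m G q (conn G A ⊔ r₂) (S₂ ∪ cut G X Xᶜ)) := by ring
        _ = _ := by rw [h1]; ring
    · have hsupp := supp_conn G hA
      intro a ha b hb
      constructor
      · intro hab
        rcases hsupp a b hab with h2 | ⟨h2, h3⟩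
        · exact Or.inl h2
        · right
          constructor
          · rcases ha with h4 | h4
            · exact_mod_cast h4
            · exfalso
              have : a ∉ X := by simpa using h4
              exact this (by exact_mod_cast h2)
          · rcases hb with h4 | h4
            · exact_mod_cast h4
            · exfalso
              have : b ∉ X := by simpa using h4
              exact this (by exact_mod_cast h3)
      · intro hab
        exact h hab
    · intro a b hab
      rcases hr₂ a b hab with h2 | h2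
      · exact Or.inl h2
      · exact Or.inr ⟨Or.inr h2.1, Or.inr h2.2⟩
    · intro e he
      rcases mem_union.1 he with h2 | h2
      · have h3 := hS₂ h2
        unfold E at h3
        rw [mem_filter] at h3
        exact ⟨Or.inr (by exact_mod_cast h3.2.1), Or.inr (by exact_mod_cast h3.2.2)⟩
      · have h3 : nx G X e ∈ (((cut G X Xᶜ).image (nx G X) : Finset V) : Set V) ∪
            ((Xᶜ : Finset V) : Set V) := Or.inl (by
              exact_mod_cast mem_image_of_mem (nx G X) h2)
        have h4 : ny G X e ∈ (((cut G X Xᶜ).image (nx G X) : Finset V) : Set V) ∪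
            ((Xᶜ : Finset V) : Set V) := Or.inr (by
              have := ny_notMem h2
              simpa using this)
        rcases nx_ny G X e with ⟨h5, h6⟩ | ⟨h5, h6⟩
        · rw [h5, h6]; exact ⟨h3, h4⟩
        · rw [h5, h6]; exact ⟨h4, h3⟩
  · rw [zero_of_not G hq hT hA hr₂ hS₂ h, mul_zero, mul_zero, zero_mul]

theorem cut_comm (G : MG V I) (X : Finset V) : cut G X Xᶜ = cut G Xᶜ X := by
  ext e
  unfold cut
  simp only [mem_filter, mem_univ, true_and]
  exact or_comm

/-- the product formula -/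
theorem cut_formula (G : MG V I) {q : ℝ} (hq : 2 < q) {X : Finset V}
    (hT : (cut G X Xᶜ).card ≤ 3) (hT1 : (cut G X Xᶜ).card ≠ 1)
    (h1 : 0 ≤ m G q (mg Xᶜ) (E G X ∪ cut G X Xᶜ))
    (h2 : 0 ≤ m G q (mg X) (E G Xᶜ ∪ cut G X Xᶜ)) : 0 ≤ m G q ⊥ univ := by
  classical
  have hq1 : 1 < q := by linarith
  have hq0 : 0 < q := by linarith
  obtain ⟨U, hU⟩ : ∃ U, U = (cut G X Xᶜ).image (nx G X) := ⟨_, rfl⟩
  have f1 := side_formula G hq1 hT (r₂ := ⊥) (S₂ := E G Xᶜ) (by
    intro a b hab; exact Or.inl hab) Subset.rfl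
  have f2 := side_formula G hq1 hT (r₂ := mg Xᶜ) (S₂ := ∅) (by
    intro a b hab
    rcases hab with h | h
    · exact Or.inl h
    · exact Or.inr ⟨by exact_mod_cast h.1, by exact_mod_cast h.2⟩) (empty_subset _)
  have hu : E G X ∪ (E G Xᶜ ∪ cut G X Xᶜ) = univ := by
    ext e
    simp only [mem_union, mem_cut, mem_univ, iff_true]
    unfold E
    simp only [mem_filter, mem_univ, true_and, mem_compl]
    tauto
  rw [hu, sup_bot_eq, ← hU] at f1
  rw [empty_union, ← hU] at f2
  have hUX : ∀ u ∈ U, u ∈ X := by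
    intro u hu
    rw [hU, mem_image] at hu
    obtain ⟨e, he, rfl⟩ := hu
    exact nx_mem he
  -- the third factor
  have hK : 0 < m G q (mg U ⊔ mg Xᶜ) (cut G X Xᶜ) := by
    rcases (cut G X Xᶜ).eq_empty_or_nonempty with h0 | ⟨e, he⟩
    · rw [h0, m_empty]
      exact pow_pos hq0 _
    · have hr : ∀ a b, (mg U ⊔ mg Xᶜ) a b → (a ∈ X ↔ b ∈ X) := by
        have h3 : mg U ⊔ mg Xᶜ ≤ Setoid.ker (fun v => v ∈ X) := by
          refine sup_le ?_ ?_
          · rw [mg_le_iff]
            intro a ha b hb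
            show (a ∈ X) = (b ∈ X)
            exact propext ⟨fun _ => hUX b hb, fun _ => hUX a ha⟩
          · rw [mg_le_iff]
            intro a ha b hb
            show (a ∈ X) = (b ∈ X)
            rw [mem_compl] at ha hb
            exact propext ⟨fun h => absurd h ha, fun h => absurd h hb⟩
        intro a b hab
        have : (a ∈ X) = (b ∈ X) := h3 hab
        rw [this]
      have hab : ¬ (mg U ⊔ mg Xᶜ) (nx G X e) (ny G X e) := fun h =>
        ny_notMem he ((hr _ _ h).1 (nx_mem he))
      rw [m_parallel G hab (cut G X Xᶜ) (by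
        intro f hf
        have h3 : (mg U ⊔ mg Xᶜ) (nx G X f) (nx G X e) :=
          (le_sup_left : mg U ≤ mg U ⊔ mg Xᶜ) (Or.inr ⟨by rw [hU]; exact mem_image_of_mem _ hf,
            by rw [hU]; exact mem_image_of_mem _ he⟩)
        have h4 : (mg U ⊔ mg Xᶜ) (ny G X f) (ny G X e) :=
          (le_sup_right : mg Xᶜ ≤ mg U ⊔ mg Xᶜ) (Or.inr ⟨mem_compl.2 (ny_notMem hf),
            mem_compl.2 (ny_notMem he)⟩)
        rcases nx_ny G X f with ⟨h5, h6⟩ | ⟨h5, h6⟩
        · rw [h5, h6]; exact Or.inl ⟨h3, h4⟩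
        · rw [h5, h6]; exact Or.inr ⟨h4, h3⟩)]
      exact mul_pos (pow_pos hq0 _) (kap_pos hq hT hT1)
  -- gluing `U` or `X`
  have f3 := m_agree G q (U := (U : Set V) ∪ ((Xᶜ : Finset V) : Set V))
    (s := mg U) (s' := mg X) (r := ⊥) (O := E G Xᶜ ∪ cut G X Xᶜ) (by
      intro a ha b hb
      constructor
      · rintro (h | h)
        · exact Or.inl h
        · exact Or.inr ⟨hUX a h.1, hUX b h.2⟩
      · rintro (h | h)
        · exact Or.inl h
        · right
          constructor
          · rcases ha with h4 | h4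
            · exact_mod_cast h4
            · exfalso
              have : a ∉ X := by simpa using h4
              exact this h.1
          · rcases hb with h4 | h4
            · exact_mod_cast h4
            · exfalso
              have : b ∉ X := by simpa using h4
              exact this h.2) (by
      intro a b hab; exact Or.inl hab) (by
      intro e he
      rcases mem_union.1 he with h2 | h2
      · unfold E at h2
        rw [mem_filter] at h2
        exact ⟨Or.inr (by exact_mod_cast h2.2.1), Or.inr (by exact_mod_cast h2.2.2)⟩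
      · have h3 : nx G X e ∈ (U : Set V) ∪ ((Xᶜ : Finset V) : Set V) := Or.inl (by
              rw [hU]
              exact_mod_cast mem_image_of_mem (nx G X) h2)
        have h4 : ny G X e ∈ (U : Set V) ∪ ((Xᶜ : Finset V) : Set V) := Or.inr (by
              have := ny_notMem h2
              simpa using this)
        rcases nx_ny G X e with ⟨h5, h6⟩ | ⟨h5, h6⟩
        · rw [h5, h6]; exact ⟨h3, h4⟩
        · rw [h5, h6]; exact ⟨h4, h3⟩)
  rw [sup_bot_eq, sup_bot_eq] at f3
  have p1 : 0 < q ^ cl (mg U) := pow_pos hq0 _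
  have p2 : 0 < q ^ cl (mg X) := pow_pos hq0 _
  have h3 : 0 ≤ m G q (mg U) (E G Xᶜ ∪ cut G X Xᶜ) := by
    by_contra hcon
    push Not at hcon
    have h4 := mul_neg_of_pos_of_neg p2 hcon
    rw [f3] at h4
    have h5 := mul_nonneg p1.le h2
    linarith
  by_contra hcon
  push Not at hcon
  have h4 : q ^ cl (mg U) * (m G q ⊥ univ * m G q (mg U ⊔ mg Xᶜ) (cut G X Xᶜ)) =
      q ^ cl (mg U) * (m G q (mg Xᶜ) (E G X ∪ cut G X Xᶜ) *
        m G q (mg U) (E G Xᶜ ∪ cut G X Xᶜ)) := by
    calc q ^ cl (mg U) * (m G q ⊥ univ * m G q (mg U ⊔ mg Xᶜ) (cut G X Xᶜ))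
        = (q ^ cl (mg U) * m G q ⊥ univ) * m G q (mg U ⊔ mg Xᶜ) (cut G X Xᶜ) := by ring
      _ = (c1 G q X * m G q (mg U ⊔ mg Xᶜ) (cut G X Xᶜ)) *
            m G q (mg U) (E G Xᶜ ∪ cut G X Xᶜ) := by rw [f1]; ring
      _ = _ := by rw [← f2]; ring
  have h5 := mul_nonneg p1.le (mul_nonneg h1 h3)
  rw [← h4] at h5
  have h6 := mul_neg_of_pos_of_neg p1 (mul_neg_of_neg_of_pos hcon hK)
  linarith

/-- collapse the complement of `X` to `y` -/
def col (X : Finset V) (y : V) (v : V) : V := if v ∈ X then v else y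

theorem ret_col {X : Finset V} {y : V} (hy : y ∉ X) : Ret (col X y) := by
  intro v
  unfold col
  by_cases h : v ∈ X
  · simp [h]
  · simp [h, hy]

theorem ker_col {X : Finset V} {y : V} (hy : y ∉ X) : Setoid.ker (col X y) = mg Xᶜ := by
  ext a b
  show col X y a = col X y b ↔ (a = b ∨ (a ∈ Xᶜ ∧ b ∈ Xᶜ))
  unfold col
  rw [mem_compl, mem_compl]
  by_cases ha : a ∈ X <;> by_cases hb : b ∈ X
  · simp [ha, hb]
  · rw [if_pos ha, if_neg hb]
    constructor
    · intro h; exact absurd (h ▸ ha) hy
    · rintro (h | h)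
      · exact absurd (h ▸ ha) hb
      · exact absurd ha h.1
  · rw [if_neg ha, if_pos hb]
    constructor
    · intro h; exact absurd (h.symm ▸ hb) hy
    · rintro (h | h)
      · exact absurd (h.symm ▸ hb) ha
      · exact absurd hb h.2
  · simp [ha, hb]

theorem wG_col (G : MG V I) (hG : ∀ v, dg G univ v = 3) {X : Finset V} {y : V} (hy : y ∉ X) :
    wG (mapG (col X y) G) (E G X ∪ cut G X Xᶜ) ≤ X.card + ((cut G X Xᶜ).card - 2) := by
  have hin : ∀ v ∈ X, dg (mapG (col X y) G) (E G X ∪ cut G X Xᶜ) v ≤ 3 := by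
    intro v hv
    rw [dg_mapG]
    have h1 : univ.filter (fun u => col X y u = v) = {v} := by
      ext u
      simp only [mem_filter, mem_univ, true_and, mem_singleton]
      unfold col
      split_ifs with h
      · exact Iff.rfl
      · constructor
        · intro h2; exact absurd (h2.symm ▸ hv) hy
        · intro h2; exact absurd (h2.symm ▸ hv) h
    rw [h1, sum_singleton, ← hG v]
    exact dg_mono G (subset_univ _) v
  have hout : ∀ v, v ∉ X → v ≠ y → dg (mapG (col X y) G) (E G X ∪ cut G X Xᶜ) v = 0 := by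
    intro v hv hvy
    rw [dg_mapG, sum_eq_zero]
    intro u hu
    exfalso
    rw [mem_filter] at hu
    have h1 := hu.2
    unfold col at h1
    split_ifs at h1 with h
    · exact hv (h1 ▸ h)
    · exact hvy h1.symm
  have hyy : dg (mapG (col X y) G) (E G X ∪ cut G X Xᶜ) y = (cut G X Xᶜ).card := by
    unfold dg
    have h1 : (E G X ∪ cut G X Xᶜ).filter (fun e => (mapG (col X y) G).x e = y) =
        (cut G X Xᶜ).filter (fun e => G.x e ∉ X) := by
      ext e
      simp only [mem_filter, mem_union]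
      show (e ∈ E G X ∨ e ∈ cut G X Xᶜ) ∧ (if G.x e ∈ X then G.x e else y) = y ↔ _
      split_ifs with h
      · constructor
        · intro h2; exact absurd (h2.2 ▸ h) hy
        · intro h2; exact absurd h h2.2
      · constructor
        · rintro ⟨h2 | h2, -⟩
          · unfold E at h2
            rw [mem_filter] at h2
            exact absurd h2.2.1 h
          · exact ⟨h2, h⟩
        · intro h2; exact ⟨Or.inr h2.1, rfl⟩
    have h2 : (E G X ∪ cut G X Xᶜ).filter (fun e => (mapG (col X y) G).y e = y) =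
        (cut G X Xᶜ).filter (fun e => ¬ (G.x e ∉ X)) := by
      ext e
      simp only [mem_filter, mem_union]
      show (e ∈ E G X ∨ e ∈ cut G X Xᶜ) ∧ (if G.y e ∈ X then G.y e else y) = y ↔ _
      split_ifs with h
      · constructor
        · intro h2; exact absurd (h2.2 ▸ h) hy
        · intro h2
          have h3 := mem_cut.1 h2.1
          tauto
      · constructor
        · rintro ⟨h2 | h2, -⟩
          · unfold E at h2
            rw [mem_filter] at h2
            exact absurd h2.2.2 h
          · refine ⟨h2, ?_⟩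
            have h3 := mem_cut.1 h2
            tauto
        · intro h2; exact ⟨Or.inr h2.1, rfl⟩
    rw [h1, h2, card_filter_add_card_filter_not]
  unfold wG
  rw [← sum_filter_add_sum_filter_not univ (fun v => v ∈ X)]
  have e1 : univ.filter (fun v => v ∈ X) = X := by ext v; simp
  rw [e1]
  have e2 : ∑ v ∈ X, (dg (mapG (col X y) G) (E G X ∪ cut G X Xᶜ) v - 2) ≤ X.card := by
    rw [card_eq_sum_ones]
    refine sum_le_sum fun v hv => ?_
    have := hin v hv
    omega
  have e3 : ∑ v ∈ univ.filter (fun v => ¬ v ∈ X),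
      (dg (mapG (col X y) G) (E G X ∪ cut G X Xᶜ) v - 2) = (cut G X Xᶜ).card - 2 := by
    rw [sum_eq_single y]
    · rw [hyy]
    · intro v hv hvy
      rw [mem_filter] at hv
      rw [hout v hv.2 hvy]
      rfl
    · intro h
      exact (h (mem_filter.2 ⟨mem_univ y, hy⟩)).elim
  rw [e3]
  omega

theorem nn_side {q : ℝ} (hq : 0 < q) (G : MG V I) (hG : ∀ v, dg G univ v = 3)
    (hlow : Low q (Fintype.card V)) {X : Finset V} (hX : Xᶜ.Nonempty)
    (hc : X.card + ((cut G X Xᶜ).card - 2) < Fintype.card V) :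
    0 ≤ m G q (mg Xᶜ) (E G X ∪ cut G X Xᶜ) := by
  obtain ⟨y, hy⟩ := hX
  rw [mem_compl] at hy
  by_contra hcon
  push Not at hcon
  have h1 : m G q (Setoid.ker (col X y) ⊔ conn G ∅) (E G X ∪ cut G X Xᶜ) < 0 := by
    rw [ker_col hy, conn_empty, sup_bot_eq]
    exact hcon
  rw [neg_mapG (ret_col hy) G hq, conn_empty] at h1
  have h2 := hlow V I _ _ (lt_of_le_of_lt (wG_col G hG hy) hc)
  linarith

/-- small cuts of a minimal negative cubic graph -/
theorem small_cuts {q : ℝ} (hq : 2 < q) (G : MG V I) (hG : ∀ v, dg G univ v = 3)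
    (hlow : Low q (Fintype.card V)) (hneg : m G q ⊥ univ < 0) (X : Finset V)
    (hX : X.Nonempty) (hXc : Xᶜ.Nonempty) :
    3 ≤ (cut G X Xᶜ).card ∧ (2 ≤ X.card → 2 ≤ Xᶜ.card → 4 ≤ (cut G X Xᶜ).card) := by
  have hq0 : 0 < q := by linarith
  have hcard : X.card + Xᶜ.card = Fintype.card V := card_add_card_compl X
  have hXp := hX.card_pos
  have hXcp := hXc.card_pos
  by_cases h1 : (cut G X Xᶜ).card = 1
  · exfalso
    obtain ⟨e, he⟩ := card_eq_one.1 h1
    have heT : e ∈ cut G X Xᶜ := by rw [he]; exact mem_singleton_self e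
    have h2 : m G q ⊥ univ = 0 := by
      rw [← insert_erase (mem_univ e)]
      apply m_bridge G q (by linarith) (notMem_erase _ _)
      intro hbr
      rw [bot_sup_eq] at hbr
      have h3 : conn G (univ.erase e) ≤ Setoid.ker (fun v => v ∈ X) := by
        rw [conn_le_iff]
        intro f hf
        show (G.x f ∈ X) = (G.y f ∈ X)
        have h4 : f ∉ cut G X Xᶜ := by
          rw [he, mem_singleton]; exact (mem_erase.1 hf).1
        rw [mem_cut] at h4
        exact propext (by tauto)
      have h4 : (G.x e ∈ X) = (G.y e ∈ X) := h3 hbr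
      rw [mem_cut] at heT
      rw [h4] at heT
      tauto
    linarith
  · have key : (cut G X Xᶜ).card ≤ 3 → X.card + ((cut G X Xᶜ).card - 2) < Fintype.card V →
        Xᶜ.card + ((cut G X Xᶜ).card - 2) < Fintype.card V → False := by
      intro k1 k2 k3
      have h2 := nn_side hq0 G hG hlow hXc k2
      have h3 : 0 ≤ m G q (mg X) (E G Xᶜ ∪ cut G X Xᶜ) := by
        have h4 := nn_side hq0 G hG hlow (X := Xᶜ) (by rw [compl_compl]; exact hX)
          (by rw [compl_compl, ← cut_comm]; exact k3)
        rw [compl_compl, ← cut_comm] at h4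
        exact h4
      have h5 := cut_formula G hq k1 h1 h2 h3
      linarith
    constructor
    · by_contra hcon
      exact key (by omega) (by omega) (by omega)
    · intro h2 h3
      by_contra hcon
      exact key (by omega) (by omega) (by omega)

end

end Pool.Agent.Y358.GC
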