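import Mathlib
import Pool.Agent.Y358.GC.Basic
import Pool.Agent.H753R2.FR.T_E1

set_option autoImplicit false
set_option linter.unusedSectionVars false

/-! Splitting vertices of degree at least four; the reduction to cubic graphs. -/

namespace Pool.Agent.Y358.GC

open Finset Pool.Agent.H753R2.FR Pool.Agent.H753R2.FR.E1

section split
variable {V I : Type} [DecidableEq V] [DecidableEq I] [Fintype V] [Fintype I]

/-- split `v`: the `x`-ends of the edges in `P` and the `y`-ends of the edges in `Q` are moved to a new
vertex, which is joined to `v` by a new edge -/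
def spl (G : MG V I) (v : V) (P Q : Finset I) : MG (Option V) (Option I) where
  x := fun e => match e with
    | none => none
    | some i => if i ∈ P then none else some (G.x i)
  y := fun e => match e with
    | none => some v
    | some i => if i ∈ Q then none else some (G.y i)

/-- the old edges -/
def old (S : Finset I) : Finset (Option I) := S.map Function.Embedding.some

theorem none_notMem_old (S : Finset I) : none ∉ old S := by
  unfold old
  simp

theorem m_spl (G : MG V I) (q : ℝ) (v : V) (P Q : Finset I) (S : Finset I)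
    (hP : ∀ i ∈ P, G.x i = v) (hQ : ∀ i ∈ Q, G.y i = v) :
    m (spl G v P Q) q ⊥ (insert none (old S)) =
      (1 + 1 / (q - 1)) * m G q ⊥ S - 1 / (q - 1) * m (spl G v P Q) q ⊥ (old S) := by
  rw [m_insert (spl G v P Q) q (none_notMem_old S)]
  congr 2
  let φ : Option V → V := fun o => o.getD v
  have hφ : Function.Surjective φ := fun a => ⟨some a, rfl⟩
  have h1 := m_comap q φ hφ Function.Embedding.some (spl G v P Q) G (by
      intro i
      show G.x i = φ (if i ∈ P then none else some (G.x i))
      split_ifs with h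
      · exact hP i h
      · rfl) (by
      intro i
      show G.y i = φ (if i ∈ Q then none else some (G.y i))
      split_ifs with h
      · exact hQ i h
      · rfl) ⊥ S
  have h2 : Setoid.comap φ (⊥ : Setoid V) =
      ⊥ ⊔ pr ((spl G v P Q).x none) ((spl G v P Q).y none) := by
    rw [bot_sup_eq]
    ext a b
    show φ a = φ b ↔ (a = b ∨ ((a = none ∨ a = some v) ∧ (b = none ∨ b = some v)))
    cases a with
    | none =>
      cases b with
      | none => simp
      | some b =>
        show v = b ↔ _
        simp only [reduceCtorEq, false_or, Option.some.injEq, true_or, true_and]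
        exact eq_comm
    | some a =>
      cases b with
      | none =>
        show a = v ↔ _
        simp
      | some b =>
        show a = b ↔ _
        simp only [Option.some.injEq, reduceCtorEq, false_or]
        constructor
        · intro h; exact Or.inl h
        · rintro (h | ⟨h, h'⟩)
          · exact h
          · rw [h, h']
  rw [← h2]
  exact h1

theorem dg_old_none (G : MG V I) (v : V) {P Q S : Finset I} (hP : P ⊆ S) (hQ : Q ⊆ S) :
    dg (spl G v P Q) (old S) none = P.card + Q.card := by
  unfold dg old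
  rw [filter_map, filter_map, card_map, card_map]
  congr 2
  · ext i
    simp only [mem_filter, Function.comp, Function.Embedding.some_apply]
    show i ∈ S ∧ (if i ∈ P then none else some (G.x i)) = none ↔ i ∈ P
    split_ifs with h
    · exact ⟨fun _ => h, fun _ => ⟨hP h, rfl⟩⟩
    · simp [h]
  · ext i
    simp only [mem_filter, Function.comp, Function.Embedding.some_apply]
    show i ∈ S ∧ (if i ∈ Q then none else some (G.y i)) = none ↔ i ∈ Q
    split_ifs with h
    · exact ⟨fun _ => h, fun _ => ⟨hQ h, rfl⟩⟩
    · simp [h]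

theorem dg_old_ne (G : MG V I) (v : V) {P Q S : Finset I} (hPv : ∀ i ∈ P, G.x i = v)
    (hQv : ∀ i ∈ Q, G.y i = v) {u : V} (hu : u ≠ v) :
    dg (spl G v P Q) (old S) (some u) = dg G S u := by
  unfold dg old
  rw [filter_map, filter_map, card_map, card_map]
  congr 2
  · ext i
    simp only [mem_filter, Function.comp, Function.Embedding.some_apply]
    show i ∈ S ∧ (if i ∈ P then none else some (G.x i)) = some u ↔ i ∈ S ∧ G.x i = u
    split_ifs with h
    · rw [hPv i h]; simp [Ne.symm hu]
    · simp
  · ext i
    simp only [mem_filter, Function.comp, Function.Embedding.some_apply]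
    show i ∈ S ∧ (if i ∈ Q then none else some (G.y i)) = some u ↔ i ∈ S ∧ G.y i = u
    split_ifs with h
    · rw [hQv i h]; simp [Ne.symm hu]
    · simp

theorem dg_old_eq (G : MG V I) (v : V) {P Q S : Finset I} (hP : P ⊆ S.filter (fun e => G.x e = v))
    (hQ : Q ⊆ S.filter (fun e => G.y e = v)) :
    dg (spl G v P Q) (old S) (some v) + (P.card + Q.card) = dg G S v := by
  unfold dg old
  rw [filter_map, filter_map, card_map, card_map]
  have h1 : S.filter ((fun e => (spl G v P Q).x e = some v) ∘ Function.Embedding.some) =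
      S.filter (fun e => G.x e = v) \ P := by
    ext i
    simp only [mem_filter, Function.comp, Function.Embedding.some_apply, mem_sdiff]
    show i ∈ S ∧ (if i ∈ P then none else some (G.x i)) = some v ↔ (i ∈ S ∧ G.x i = v) ∧ i ∉ P
    split_ifs with h
    · simp [h]
    · simp [h]
  have h2 : S.filter ((fun e => (spl G v P Q).y e = some v) ∘ Function.Embedding.some) =
      S.filter (fun e => G.y e = v) \ Q := by
    ext i
    simp only [mem_filter, Function.comp, Function.Embedding.some_apply, mem_sdiff]
    show i ∈ S ∧ (if i ∈ Q then none else some (G.y i)) = some v ↔ (i ∈ S ∧ G.y i = v) ∧ i ∉ Q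
    split_ifs with h
    · simp [h]
    · simp [h]
  rw [h1, h2, card_sdiff_of_subset hP, card_sdiff_of_subset hQ]
  have h3 := card_le_card hP
  have h4 := card_le_card hQ
  omega

theorem sum_option (f : Option V → ℕ) (v : V) :
    ∑ o, f o = f none + (f (some v) + ∑ u ∈ univ.erase v, f (some u)) := by
  rw [Fintype.sum_option, ← add_sum_erase _ _ (mem_univ v)]

theorem sum_erase' (f : V → ℕ) (v : V) : ∑ u, f u = f v + ∑ u ∈ univ.erase v, f u := by
  rw [← add_sum_erase _ _ (mem_univ v)]

/-- the splitting step -/
theorem split_step {q : ℝ} (hq : 1 < q) (G : MG V I) (S : Finset I) (v : V) (hv : 4 ≤ dg G S v)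
    (hneg : m G q ⊥ S < 0) (hlow : Low q (wG G S)) :
    ∃ (G' : MG (Option V) (Option I)) (S' : Finset (Option I)), m G' q ⊥ S' < 0 ∧
      wG G' S' ≤ wG G S ∧ xG G' S' + 1 ≤ xG G S ∧ S'.card = S.card + 1 := by
  obtain ⟨P, hP, hPc⟩ := exists_subset_card_eq
    (s := S.filter (fun e => G.x e = v)) (n := min 2 (S.filter (fun e => G.x e = v)).card)
    (min_le_right _ _)
  obtain ⟨Q, hQ, hQc⟩ := exists_subset_card_eq
    (s := S.filter (fun e => G.y e = v)) (n := 2 - P.card) (by
      unfold dg at hv; omega)
  have hPQ : P.card + Q.card = 2 := by omega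
  have hPv : ∀ i ∈ P, G.x i = v := fun i hi => (mem_filter.1 (hP hi)).2
  have hQv : ∀ i ∈ Q, G.y i = v := fun i hi => (mem_filter.1 (hQ hi)).2
  have hPS : P ⊆ S := hP.trans (filter_subset _ _)
  have hQS : Q ⊆ S := hQ.trans (filter_subset _ _)
  have hm := m_spl G q v P Q S hPv hQv
  have d0 := dg_old_none G v hPS hQS
  have d1 := dg_old_eq G v hP hQ
  have d2 : ∀ u, u ≠ v → dg (spl G v P Q) (old S) (some u) = dg G S u :=
    fun u hu => dg_old_ne G v hPv hQv hu
  -- the deletion has a smaller measure
  have w1 : wG (spl G v P Q) (old S) < wG G S := by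
    unfold wG
    rw [sum_option _ v, sum_erase' _ v]
    have h1 : ∑ u ∈ univ.erase v, (dg (spl G v P Q) (old S) (some u) - 2) =
        ∑ u ∈ univ.erase v, (dg G S u - 2) := by
      refine sum_congr rfl fun u hu => ?_
      rw [d2 u (mem_erase.1 hu).1]
    rw [h1]
    omega
  have n1 : 0 ≤ m (spl G v P Q) q ⊥ (old S) := hlow _ _ _ _ w1
  have hp : 0 < 1 / (q - 1) := by
    have : 0 < q - 1 := by linarith
    positivity
  have e0 := dg_insert (spl G v P Q) (none_notMem_old S) none
  have e1 := dg_insert (spl G v P Q) (none_notMem_old S) (some v)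
  have e2 : ∀ u, u ≠ v → dg (spl G v P Q) (insert none (old S)) (some u) = dg G S u := by
    intro u hu
    rw [dg_insert (spl G v P Q) (none_notMem_old S) (some u), d2 u hu]
    have h1 : ¬ ((spl G v P Q).x none = some u) := by
      show ¬ ((none : Option V) = some u)
      simp
    have h2 : ¬ ((spl G v P Q).y none = some u) := by
      show ¬ (some v = some u)
      simp [Ne.symm hu]
    rw [if_neg h1, if_neg h2]
    omega
  have f0 : dg (spl G v P Q) (insert none (old S)) none = 3 := by
    rw [d0, hPQ, if_pos (show (spl G v P Q).x none = none from rfl),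
      if_neg (show ¬ ((spl G v P Q).y none = none) by
        show ¬ (some v = none)
        simp)] at e0
    omega
  have f1 : dg (spl G v P Q) (insert none (old S)) (some v) + 1 = dg G S v := by
    rw [e1, if_neg (show ¬ ((spl G v P Q).x none = some v) by
        show ¬ ((none : Option V) = some v)
        simp),
      if_pos (show (spl G v P Q).y none = some v from rfl)]
    omega
  refine ⟨spl G v P Q, insert none (old S), ?_, ?_, ?_, ?_⟩
  · rw [hm]
    have h1 : (1 + 1 / (q - 1)) * m G q ⊥ S < 0 := mul_neg_of_pos_of_neg (by linarith) hneg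
    have h2 : 0 ≤ 1 / (q - 1) * m (spl G v P Q) q ⊥ (old S) := mul_nonneg hp.le n1
    linarith
  · unfold wG
    rw [sum_option _ v, sum_erase' _ v]
    have h1 : ∑ u ∈ univ.erase v, (dg (spl G v P Q) (insert none (old S)) (some u) - 2) =
        ∑ u ∈ univ.erase v, (dg G S u - 2) := by
      refine sum_congr rfl fun u hu => ?_
      rw [e2 u (mem_erase.1 hu).1]
    rw [h1]
    omega
  · unfold xG
    rw [sum_option _ v, sum_erase' _ v]
    have h1 : ∑ u ∈ univ.erase v, (dg (spl G v P Q) (insert none (old S)) (some u) - 3) =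
        ∑ u ∈ univ.erase v, (dg G S u - 3) := by
      refine sum_congr rfl fun u hu => ?_
      rw [e2 u (mem_erase.1 hu).1]
    rw [h1]
    omega
  · rw [card_insert_of_notMem (none_notMem_old S)]
    unfold old
    rw [card_map]

/-- a vertex of degree `0` is isolated -/
theorem iso_of_dg (G : MG V I) {A : Finset I} {v : V} (h : dg G A v = 0) {u : V}
    (hu : conn G A v u) : u = v := by
  have h1 : conn G A ≤ mg (univ.erase v) := by
    rw [conn_le_iff]
    intro e he
    right
    have hx : G.x e ≠ v := by
      intro hx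
      have : 0 < (A.filter (fun e => G.x e = v)).card := card_pos.2 ⟨e, mem_filter.2 ⟨he, hx⟩⟩
      unfold dg at h
      omega
    have hy : G.y e ≠ v := by
      intro hy
      have : 0 < (A.filter (fun e => G.y e = v)).card := card_pos.2 ⟨e, mem_filter.2 ⟨he, hy⟩⟩
      unfold dg at h
      omega
    exact ⟨mem_erase.2 ⟨hx, mem_univ _⟩, mem_erase.2 ⟨hy, mem_univ _⟩⟩
  rcases h1 hu with h2 | h2
  · exact h2.symm
  · exact absurd rfl (mem_erase.1 h2.1).1

/-- a vertex of degree `1` makes the polynomial vanish -/
theorem m_dg_one {q : ℝ} (hq : 1 < q) (G : MG V I) {S : Finset I} {v : V} (h : dg G S v = 1) :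
    m G q ⊥ S = 0 := by
  obtain ⟨e, he, hev⟩ : ∃ e ∈ S, G.x e = v ∨ G.y e = v := by
    by_contra hcon
    push Not at hcon
    have h1 : S.filter (fun e => G.x e = v) = ∅ := by
      rw [filter_eq_empty_iff]; exact fun e he => (hcon e he).1
    have h2 : S.filter (fun e => G.y e = v) = ∅ := by
      rw [filter_eq_empty_iff]; exact fun e he => (hcon e he).2
    unfold dg at h
    rw [h1, h2] at h
    simp at h
  have hS : insert e (S.erase e) = S := insert_erase he
  have hne : e ∉ S.erase e := notMem_erase e S
  have h1 := dg_insert G hne v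
  rw [hS, h] at h1
  rw [← hS]
  apply m_bridge G q hq hne
  rw [bot_sup_eq]
  intro hc
  by_cases hx : G.x e = v
  · by_cases hy : G.y e = v
    · rw [if_pos hx, if_pos hy] at h1; omega
    · have h0 : dg G (S.erase e) v = 0 := by
        rw [if_pos hx, if_neg hy] at h1; omega
      rw [hx] at hc
      exact hy (iso_of_dg G h0 hc)
  · have hy : G.y e = v := hev.resolve_left hx
    have h0 : dg G (S.erase e) v = 0 := by
      rw [if_neg hx, if_pos hy] at h1; omega
    rw [hy] at hc
    exact hx (iso_of_dg G h0 ((conn G (S.erase e)).symm hc))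

/-- the step at a vertex of degree `2` -/
theorem two_step {q : ℝ} (hq : 1 < q) (G : MG V I) (S : Finset I) (v : V) (hv : dg G S v = 2)
    (hneg : m G q ⊥ S < 0) :
    ∃ (G' : MG V I) (S' : Finset I), m G' q ⊥ S' < 0 ∧
      wG G' S' ≤ wG G S ∧ xG G' S' ≤ xG G S ∧ S'.card + 1 = S.card := by
  obtain ⟨e, he, hev⟩ : ∃ e ∈ S, G.x e = v ∨ G.y e = v := by
    by_contra hcon
    push Not at hcon
    have h1 : S.filter (fun e => G.x e = v) = ∅ := by
      rw [filter_eq_empty_iff]; exact fun e he => (hcon e he).1
    have h2 : S.filter (fun e => G.y e = v) = ∅ := by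
      rw [filter_eq_empty_iff]; exact fun e he => (hcon e he).2
    unfold dg at hv
    rw [h1, h2] at hv
    simp at hv
  have hS : insert e (S.erase e) = S := insert_erase he
  have hne : e ∉ S.erase e := notMem_erase e S
  have hcard : (S.erase e).card + 1 = S.card := card_erase_add_one he
  by_cases hl : G.x e = G.y e
  · refine ⟨G, S.erase e, ?_, wG_mono G (erase_subset _ _), xG_mono G (erase_subset _ _), hcard⟩
    have h1 := m_loops G q (S := {e}) (O := S.erase e) ⊥ (by
      intro e' he'
      rw [mem_singleton] at he'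
      rw [he', hl])
    have h2 : S.erase e ∪ {e} = S := by
      rw [union_comm, ← insert_eq, hS]
    rw [h2] at h1
    rw [← h1]
    exact hneg
  · have h1 := dg_insert G hne v
    rw [hS, hv] at h1
    have h0 : dg G (S.erase e) v = 1 := by
      by_cases hx : G.x e = v
      · have hy : ¬ G.y e = v := fun hy => hl (hx.trans hy.symm)
        rw [if_pos hx, if_neg hy] at h1; omega
      · have hy : G.y e = v := hev.resolve_left hx
        rw [if_neg hx, if_pos hy] at h1; omega
    have h2 := m_dg_one hq G h0
    have h3 := m_insert G q hne ⊥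
    rw [hS, h2, mul_zero, sub_zero] at h3
    have hp : 0 < 1 / (q - 1) := by
      have : 0 < q - 1 := by linarith
      positivity
    have h4 : m G q (Setoid.ker (mv (G.x e) (G.y e)) ⊔ conn G ∅) (S.erase e) < 0 := by
      rw [ker_mv, conn_empty, sup_comm]
      by_contra hcon
      push Not at hcon
      have := mul_nonneg (by linarith : (0 : ℝ) ≤ 1 + 1 / (q - 1)) hcon
      linarith
    rw [neg_mapG (ret_mv _ _) G (by linarith), conn_empty] at h4
    refine ⟨_, _, h4, ?_, ?_, hcard⟩
    · have := wG_contract G hne
      rwa [hS] at this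
    · have := xG_contract G hne (by
        rcases hev with h5 | h5
        · left; rw [h5, h0]
        · right; rw [h5, h0])
      rwa [hS] at this

end split

/-- a negative graph all of whose degrees are `0` or `3` -/
theorem exists_03 {q : ℝ} (hq : 1 < q) (W : ℕ) (hlow : Low q W) :
    ∀ (N : ℕ) (V I : Type) [DecidableEq V] [DecidableEq I] [Fintype V] [Fintype I] (G : MG V I)
      (S : Finset I), m G q ⊥ S < 0 → wG G S ≤ W → 2 * xG G S + S.card ≤ N →
      ∃ (V' I' : Type) (_ : DecidableEq V') (_ : DecidableEq I') (_ : Fintype V') (_ : Fintype I')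
        (G' : MG V' I') (S' : Finset I'), m G' q ⊥ S' < 0 ∧ wG G' S' ≤ W ∧
          ∀ v, dg G' S' v = 0 ∨ dg G' S' v = 3 := by
  intro N
  induction N with
  | zero =>
    intro V I _ _ _ _ G S hneg hw hN
    refine ⟨V, I, inferInstance, inferInstance, inferInstance, inferInstance, G, S, hneg, hw, ?_⟩
    intro v
    left
    have h1 : S = ∅ := card_eq_zero.1 (by omega)
    rw [h1]
    simp [dg]
  | succ N ih =>
    intro V I _ _ _ _ G S hneg hw hN
    by_cases hall : ∀ v, dg G S v = 0 ∨ dg G S v = 3
    · exact ⟨V, I, inferInstance, inferInstance, inferInstance, inferInstance, G, S, hneg, hw, hall⟩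
    · push Not at hall
      obtain ⟨v, hv0, hv3⟩ := hall
      have hwW : wG G S = W := by
        rcases hw.lt_or_eq with h | h
        · have := hlow V I G S h
          linarith
        · exact h
      by_cases h1 : dg G S v = 1
      · have := m_dg_one hq G h1
        linarith
      · by_cases h2 : dg G S v = 2
        · obtain ⟨G', S', a1, a2, a3, a4⟩ := two_step hq G S v h2 hneg
          exact ih V I G' S' a1 (a2.trans hw) (by omega)
        · obtain ⟨G', S', a1, a2, a3, a4⟩ := split_step hq G S v (by omega) hneg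
            (by rw [hwW]; exact hlow)
          exact ih (Option V) (Option I) G' S' a1 (a2.trans hw) (by omega)

/-- compression to `Fin n` and `Fin k` -/
theorem compress {q : ℝ} (hq : 1 < q) {V I : Type} [DecidableEq V] [DecidableEq I] [Fintype V]
    [Fintype I] (G : MG V I) (S : Finset I) (hneg : m G q ⊥ S < 0)
    (h03 : ∀ v, dg G S v = 0 ∨ dg G S v = 3) :
    ∃ (k : ℕ) (G' : MG (Fin (wG G S)) (Fin k)), (∀ v, dg G' univ v = 3) ∧ m G' q ⊥ univ < 0 := by
  have hq0 : 0 < q := by linarith
  have hw : wG G S = Fintype.card {v : V // dg G S v = 3} := by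
    rw [Fintype.card_subtype, card_filter]
    unfold wG
    refine sum_congr rfl fun v _ => ?_
    rcases h03 v with h | h <;> simp [h]
  have hends : ∀ e ∈ S, dg G S (G.x e) = 3 ∧ dg G S (G.y e) = 3 := by
    intro e he
    constructor
    · rcases h03 (G.x e) with h | h
      · have : 0 < (S.filter (fun e' => G.x e' = G.x e)).card :=
          card_pos.2 ⟨e, mem_filter.2 ⟨he, rfl⟩⟩
        unfold dg at h
        omega
      · exact h
    · rcases h03 (G.y e) with h | h
      · have : 0 < (S.filter (fun e' => G.y e' = G.y e)).card :=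
          card_pos.2 ⟨e, mem_filter.2 ⟨he, rfl⟩⟩
        unfold dg at h
        omega
      · exact h
  obtain ⟨v0, hv0⟩ : ∃ v0, dg G S v0 = 3 := by
    by_contra hcon
    push Not at hcon
    have hS : S = ∅ := by
      rw [eq_empty_iff_forall_notMem]
      intro e he
      exact hcon _ (hends e he).1
    rw [hS, m_empty] at hneg
    have := pow_pos hq0 (cl (⊥ : Setoid V))
    linarith
  rw [hw]
  let eV : {v : V // dg G S v = 3} ≃ Fin (Fintype.card {v : V // dg G S v = 3}) :=
    Fintype.equivFin _
  let φ : V → Fin (Fintype.card {v : V // dg G S v = 3}) :=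
    fun v => if h : dg G S v = 3 then eV ⟨v, h⟩ else eV ⟨v0, hv0⟩
  have hφ3 : ∀ (v : V) (h : dg G S v = 3), φ v = eV ⟨v, h⟩ := fun v h => by
    simp only [φ, dif_pos h]
  have hφs : Function.Surjective φ := by
    intro i
    refine ⟨(eV.symm i).1, ?_⟩
    rw [hφ3 _ (eV.symm i).2]
    exact eV.apply_symm_apply i
  have hφi : ∀ a b : V, dg G S a = 3 → dg G S b = 3 → φ a = φ b → a = b := by
    intro a b ha hb hab
    rw [hφ3 a ha, hφ3 b hb] at hab
    have := eV.injective hab
    exact congrArg Subtype.val this
  let ψ : Fin S.card ↪ I := S.equivFin.symm.toEmbedding.trans (Function.Embedding.subtype _)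
  have hψ : univ.map ψ = S := by
    ext e
    simp only [mem_map, mem_univ, true_and]
    constructor
    · rintro ⟨i, rfl⟩
      exact (S.equivFin.symm i).2
    · intro he
      refine ⟨S.equivFin ⟨e, he⟩, ?_⟩
      show (S.equivFin.symm (S.equivFin ⟨e, he⟩)).1 = e
      rw [Equiv.symm_apply_apply]
  let G' : MG (Fin (Fintype.card {v : V // dg G S v = 3})) (Fin S.card) :=
    ⟨fun i => φ (G.x (ψ i)), fun i => φ (G.y (ψ i))⟩
  have h1 := m_comap q φ hφs ψ G G' (fun _ => rfl) (fun _ => rfl) ⊥ univ
  rw [hψ] at h1
  have h2 := m_agree G q (U := {v | dg G S v = 3}) (s := ⊥) (s' := Setoid.comap φ ⊥)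
    (r := ⊥) (O := S) (by
      intro a ha b hb
      show a = b ↔ φ a = φ b
      exact ⟨fun h => by rw [h], fun h => hφi a b ha hb h⟩) (by
      intro a b hab
      exact Or.inl hab) hends
  rw [sup_bot_eq, sup_bot_eq] at h2
  refine ⟨S.card, G', ?_, ?_⟩
  · intro i
    obtain ⟨v, hv, hvi⟩ : ∃ v, dg G S v = 3 ∧ φ v = i :=
      ⟨(eV.symm i).1, (eV.symm i).2, by
        rw [hφ3 _ (eV.symm i).2]
        exact eV.apply_symm_apply i⟩
    suffices hgoal : dg G' univ i = dg G S v by rw [hgoal, hv]
    unfold dg
    congr 1
    · have h3 : S.filter (fun e => G.x e = v) =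
          (univ.filter (fun j : Fin S.card => G'.x j = i)).map ψ := by
        ext e
        simp only [mem_filter, mem_map, mem_univ, true_and]
        constructor
        · rintro ⟨he, hx⟩
          rw [← hψ, mem_map] at he
          obtain ⟨j, -, rfl⟩ := he
          refine ⟨j, ?_, rfl⟩
          show φ (G.x (ψ j)) = i
          rw [hx, hvi]
        · rintro ⟨j, hj, rfl⟩
          have hjS : ψ j ∈ S := (S.equivFin.symm j).2
          refine ⟨hjS, ?_⟩
          have hj' : φ (G.x (ψ j)) = i := hj
          exact hφi _ _ (hends _ hjS).1 hv (hj'.trans hvi.symm)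
      rw [h3, card_map]
      rfl
    · have h3 : S.filter (fun e => G.y e = v) =
          (univ.filter (fun j : Fin S.card => G'.y j = i)).map ψ := by
        ext e
        simp only [mem_filter, mem_map, mem_univ, true_and]
        constructor
        · rintro ⟨he, hx⟩
          rw [← hψ, mem_map] at he
          obtain ⟨j, -, rfl⟩ := he
          refine ⟨j, ?_, rfl⟩
          show φ (G.y (ψ j)) = i
          rw [hx, hvi]
        · rintro ⟨j, hj, rfl⟩
          have hjS : ψ j ∈ S := (S.equivFin.symm j).2
          refine ⟨hjS, ?_⟩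
          have hj' : φ (G.y (ψ j)) = i := hj
          exact hφi _ _ (hends _ hjS).2 hv (hj'.trans hvi.symm)
      rw [h3, card_map]
      rfl
  · rw [← h1]
    by_contra hcon
    push Not at hcon
    have h3 := mul_nonneg (pow_pos hq0 (cl (⊥ : Setoid V))).le hcon
    rw [← h2] at h3
    have h4 := mul_neg_of_pos_of_neg (pow_pos hq0 (cl (Setoid.comap φ ⊥))) hneg
    linarith

/-- a minimal negative graph is cubic -/
theorem exists_min_cubic {q : ℝ} (hq : 1 < q) {n₀ k₀ : ℕ} (G₀ : MG (Fin n₀) (Fin k₀))
    (hneg₀ : m G₀ q ⊥ univ < 0) :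
    ∃ (n k : ℕ) (G : MG (Fin n) (Fin k)), (∀ v, dg G univ v = 3) ∧ m G q ⊥ univ < 0 ∧
      Low q n := by
  classical
  let P : ℕ → Prop := fun w => ∃ (V I : Type) (_ : DecidableEq V) (_ : DecidableEq I)
    (_ : Fintype V) (_ : Fintype I) (G : MG V I) (S : Finset I), m G q ⊥ S < 0 ∧ wG G S ≤ w
  have hP : ∃ w, P w := ⟨wG G₀ univ, Fin n₀, Fin k₀, inferInstance, inferInstance, inferInstance,
    inferInstance, G₀, univ, hneg₀, le_rfl⟩
  have h1 : P (Nat.find hP) := Nat.find_spec hP
  have hlow : Low q (Nat.find hP) := by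
    intro V I _ _ _ _ G S hw
    by_contra hcon
    push Not at hcon
    exact Nat.find_min hP hw ⟨V, I, inferInstance, inferInstance, inferInstance, inferInstance,
      G, S, hcon, le_rfl⟩
  obtain ⟨V, I, i1, i2, i3, i4, G, S, hneg, hw⟩ := h1
  obtain ⟨V', I', j1, j2, j3, j4, G', S', hneg', hw', h03⟩ :=
    exists_03 hq _ hlow _ V I G S hneg hw le_rfl
  obtain ⟨k, G'', hc, hn⟩ := compress hq G' S' hneg' h03
  refine ⟨wG G' S', k, G'', hc, hn, ?_⟩
  intro V I _ _ _ _ G S hS
  exact hlow V I G S (lt_of_lt_of_le hS hw')

end Pool.Agent.Y358.GC
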