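import Mathlib
import Pool.Agent.Y358.GC.Split
import Pool.Agent.Y358.GC.Circ
import Pool.Agent.Y358.GC.Cuts
import Pool.Agent.H753R2.FR.T_D6b

set_option autoImplicit false
set_option linter.unusedSectionVars false

/-! From minimal negative cubic multigraphs to Mathlib's simple graphs. -/

namespace Pool.Agent.Y358.GC

open Finset Pool.Agent.H753R2.FR Pool.Agent.TH325.FR

/-- the flow polynomial of a simple graph on `Fin n` -/
noncomputable def flow {n : ℕ} (G : SimpleGraph (Fin n)) [DecidableRel G.Adj] (x : ℝ) : ℝ :=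
  ∑ S ∈ G.edgeFinset.powerset, (-1 : ℝ) ^ (G.edgeFinset.card - S.card) *
    x ^ (S.card + Nat.card (SimpleGraph.fromEdgeSet
      (S : Set (Sym2 (Fin n)))).ConnectedComponent - n)

section
variable {n k : ℕ}

/-- the multigraph has no loops and no parallel edges -/
structure Simp (G : MG (Fin n) (Fin k)) : Prop where
  loop : ∀ e, G.x e ≠ G.y e
  par : ∀ e f, s(G.x e, G.y e) = s(G.x f, G.y f) → e = f

theorem simp_of {q : ℝ} (hq : 2 < q) (G : MG (Fin n) (Fin k)) (hG : ∀ v, dg G univ v = 3)
    (hlow : Low q n) (hneg : m G q ⊥ univ < 0) : Simp G := by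
  have hlow' : Low q (Fintype.card (Fin n)) := by rw [Fintype.card_fin]; exact hlow
  have hl : ∀ e, G.x e ≠ G.y e := by
    intro e he
    have h1 : Dep G {e} := ⟨e, mem_singleton_self e, by
      rw [he]⟩
    have h2 := long_circuits (by linarith) G hG hlow' hneg {e} h1
    rw [card_singleton] at h2
    norm_num at h2
    linarith
  refine ⟨hl, ?_⟩
  intro e f hef
  by_contra hne
  have h1 : Dep G {e, f} := by
    refine ⟨e, mem_insert_self _ _, ?_⟩
    have h3 : ({e, f} : Finset (Fin k)).erase e = {f} := by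
      rw [erase_insert]
      simpa using hne
    rw [h3]
    have h4 : conn G {f} (G.x f) (G.y f) :=
      (conn_le_iff G).1 le_rfl f (mem_singleton_self f)
    rw [Sym2.eq_iff] at hef
    rcases hef with ⟨h5, h6⟩ | ⟨h5, h6⟩
    · rw [h5, h6]; exact h4
    · rw [h5, h6]; exact (conn G {f}).symm h4
  have h2 := long_circuits (by linarith) G hG hlow' hneg {e, f} h1
  rw [card_pair hne] at h2
  norm_num at h2
  linarith

/-- the simple graph of a multigraph -/
def toS (G : MG (Fin n) (Fin k)) : SimpleGraph (Fin n) :=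
  SimpleGraph.fromEdgeSet (Set.range (fun e => s(G.x e, G.y e)))

theorem toS_adj {G : MG (Fin n) (Fin k)} (hs : Simp G) {u v : Fin n} :
    (toS G).Adj u v ↔ ∃ e, s(G.x e, G.y e) = s(u, v) := by
  unfold toS
  rw [SimpleGraph.fromEdgeSet_adj]
  constructor
  · rintro ⟨⟨e, he⟩, -⟩
    exact ⟨e, he⟩
  · rintro ⟨e, he⟩
    refine ⟨⟨e, he⟩, ?_⟩
    rintro rfl
    rw [Sym2.eq_iff] at he
    rcases he with ⟨h1, h2⟩ | ⟨h1, h2⟩
    · exact hs.loop e (h1.trans h2.symm)
    · exact hs.loop e (h1.trans h2.symm)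

/-- the edges as an embedding -/
def en {G : MG (Fin n) (Fin k)} (hs : Simp G) : Fin k ↪ Sym2 (Fin n) :=
  ⟨fun e => s(G.x e, G.y e), fun e f h => hs.par e f h⟩

theorem en_apply {G : MG (Fin n) (Fin k)} (hs : Simp G) (e : Fin k) :
    en hs e = s(G.x e, G.y e) := rfl

theorem edgeFinset_toS {G : MG (Fin n) (Fin k)} (hs : Simp G) [DecidableRel (toS G).Adj] :
    (toS G).edgeFinset = univ.map (en hs) := by
  ext z
  rw [SimpleGraph.mem_edgeFinset, mem_map]
  induction z using Sym2.ind with
  | _ a b =>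
    rw [SimpleGraph.mem_edgeSet, toS_adj hs]
    constructor
    · rintro ⟨e, he⟩; exact ⟨e, mem_univ _, he⟩
    · rintro ⟨e, -, he⟩; exact ⟨e, he⟩

theorem conn_fromEdgeSet (G : MG (Fin n) (Fin k)) (A : Finset (Fin k)) :
    Nat.card (SimpleGraph.fromEdgeSet
      ((fun e => s(G.x e, G.y e)) '' (A : Set (Fin k)))).ConnectedComponent = cl (conn G A) := by
  refine Eq.trans ?_ (D6b.cl_conn_eq (fun e => (G.x e, G.y e)) A)
  congr 3
  ext a b
  rw [SimpleGraph.fromRel_adj, SimpleGraph.fromEdgeSet_adj]
  constructor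
  · rintro ⟨⟨f, hf, h⟩, hne⟩
    refine ⟨hne, ?_⟩
    simp only [Sym2.eq_iff] at h
    rcases h with ⟨h1, h2⟩ | ⟨h1, h2⟩
    · exact Or.inl ⟨f, hf, Prod.ext h1 h2⟩
    · exact Or.inr ⟨f, hf, Prod.ext h1 h2⟩
  · rintro ⟨hne, h⟩
    refine ⟨?_, hne⟩
    rcases h with ⟨f, hf, h⟩ | ⟨f, hf, h⟩
    · rw [Prod.mk.injEq] at h
      refine ⟨f, hf, ?_⟩
      simp only
      rw [h.1, h.2]
    · rw [Prod.mk.injEq] at h
      refine ⟨f, hf, ?_⟩
      simp only
      rw [h.1, h.2, Sym2.eq_swap]

theorem flow_toS {G : MG (Fin n) (Fin k)} (hs : Simp G) [DecidableRel (toS G).Adj] {x : ℝ}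
    (hx : 1 < x) : flow (toS G) x * x ^ n = m G x ⊥ univ * (x - 1) ^ k := by
  rw [← D6b.flow_eval G x hx]
  congr 1
  unfold flow
  rw [edgeFinset_toS hs]
  symm
  refine sum_bij (fun A _ => A.map (en hs)) ?_ ?_ ?_ ?_
  · intro A hA
    rw [mem_powerset] at hA ⊢
    exact map_subset_map.2 hA
  · intro A _ B _ h
    exact map_injective _ h
  · intro B hB
    rw [mem_powerset] at hB
    refine ⟨univ.filter (fun e => en hs e ∈ B), mem_powerset.2 (subset_univ _), ?_⟩
    ext z
    simp only [mem_map, mem_filter, mem_univ, true_and]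
    constructor
    · rintro ⟨e, he, rfl⟩; exact he
    · intro hz
      obtain ⟨e, -, rfl⟩ := mem_map.1 (hB hz)
      exact ⟨e, hz, rfl⟩
  · intro A _
    have h1 : ((A.map (en hs) : Finset (Sym2 (Fin n))) : Set (Sym2 (Fin n))) =
        (fun e => s(G.x e, G.y e)) '' (A : Set (Fin k)) := by
      rw [coe_map]; rfl
    rw [card_map, card_map, card_univ, Fintype.card_fin, h1, conn_fromEdgeSet]

theorem degree_toS {G : MG (Fin n) (Fin k)} (hs : Simp G) [DecidableRel (toS G).Adj]
    (v : Fin n) : (toS G).degree v = dg G univ v := by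
  classical
  rw [← SimpleGraph.card_incidenceFinset_eq_degree]
  have h1 : (toS G).incidenceFinset v =
      (univ.filter (fun e => G.x e = v ∨ G.y e = v)).map (en hs) := by
    ext z
    rw [SimpleGraph.mem_incidenceFinset, mem_map]
    induction z using Sym2.ind with
    | _ a b =>
      unfold SimpleGraph.incidenceSet
      simp only [Set.mem_sep_iff, SimpleGraph.mem_edgeSet, toS_adj hs, mem_filter, mem_univ,
        true_and]
      constructor
      · rintro ⟨⟨e, he⟩, hv⟩
        refine ⟨e, ?_, he⟩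
        rw [← he, Sym2.mem_iff] at hv
        rcases hv with h | h
        · exact Or.inl h.symm
        · exact Or.inr h.symm
      · rintro ⟨e, he, h⟩
        refine ⟨⟨e, h⟩, ?_⟩
        have h2 : s(G.x e, G.y e) = s(a, b) := h
        rw [← h2, Sym2.mem_iff]
        rcases he with h | h
        · exact Or.inl h.symm
        · exact Or.inr h.symm
  rw [h1, card_map, filter_or, card_union_of_disjoint]
  · rfl
  · rw [disjoint_left]
    intro e he hf
    rw [mem_filter] at he hf
    exact hs.loop e (he.2.trans hf.2.symm)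

theorem interedges_toS {G : MG (Fin n) (Fin k)} (hs : Simp G) [DecidableRel (toS G).Adj]
    (X : Finset (Fin n)) : (cut G X Xᶜ).card ≤ ((toS G).interedges X Xᶜ).card := by
  apply card_le_card_of_injOn (fun e => (nx G X e, ny G X e))
  · intro e he
    rw [mem_coe] at he
    rw [mem_coe, SimpleGraph.mk_mem_interedges_iff]
    refine ⟨nx_mem he, mem_compl.2 (ny_notMem he), ?_⟩
    rw [toS_adj hs]
    refine ⟨e, ?_⟩
    rcases nx_ny G X e with ⟨h1, h2⟩ | ⟨h1, h2⟩
    · rw [h1, h2]
    · rw [h1, h2, Sym2.eq_swap]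
  · intro e _ f _ h
    simp only [Prod.mk.injEq] at h
    apply hs.par
    have h1 : s(G.x e, G.y e) = s(nx G X e, ny G X e) := by
      rcases nx_ny G X e with ⟨h1, h2⟩ | ⟨h1, h2⟩
      · rw [h1, h2]
      · rw [h1, h2, Sym2.eq_swap]
    have h2 : s(G.x f, G.y f) = s(nx G X f, ny G X f) := by
      rcases nx_ny G X f with ⟨h1, h2⟩ | ⟨h1, h2⟩
      · rw [h1, h2]
      · rw [h1, h2, Sym2.eq_swap]
    rw [h1, h2, h.1, h.2]

theorem conn_of_walk {G : MG (Fin n) (Fin k)} (hs : Simp G) (A : Finset (Fin k)) {u v : Fin n}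
    (p : (toS G).Walk u v) (hA : ∀ e, en hs e ∈ p.edges → e ∈ A) : conn G A u v := by
  induction p with
  | nil => exact (conn G A).refl _
  | @cons u w v h p ih =>
    have h1 := ih (fun e he => hA e (by
      rw [SimpleGraph.Walk.edges_cons]; exact List.mem_cons_of_mem _ he))
    obtain ⟨e, he⟩ := (toS_adj hs).1 h
    have h2 : e ∈ A := hA e (by
      rw [SimpleGraph.Walk.edges_cons, en_apply, he]; exact List.mem_cons_self)
    have h3 : conn G A (G.x e) (G.y e) := (conn_le_iff G).1 le_rfl e h2
    rw [Sym2.eq_iff] at he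
    rcases he with ⟨h4, h5⟩ | ⟨h4, h5⟩
    · rw [h4, h5] at h3
      exact (conn G A).trans h3 h1
    · rw [h4, h5] at h3
      exact (conn G A).trans ((conn G A).symm h3) h1

theorem cycle_long {q : ℝ} (hq : 1 < q) {G : MG (Fin n) (Fin k)} (hs : Simp G)
    (hG : ∀ v, dg G univ v = 3) (hlow : Low q n) (hneg : m G q ⊥ univ < 0) {u : Fin n}
    (c : (toS G).Walk u u) (hc : c.IsCycle) : q < c.length := by
  classical
  have hlow' : Low q (Fintype.card (Fin n)) := by rw [Fintype.card_fin]; exact hlow
  cases c with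
  | nil => exact absurd hc (by simp)
  | @cons _ w _ h p =>
    rw [SimpleGraph.Walk.cons_isCycle_iff] at hc
    obtain ⟨e, he⟩ := (toS_adj hs).1 h
    let U : Finset (Fin k) := univ.filter (fun e => en hs e ∈ (SimpleGraph.Walk.cons h p).edges)
    have hU : Dep G U := by
      refine ⟨e, ?_, ?_⟩
      · rw [mem_filter]
        refine ⟨mem_univ _, ?_⟩
        rw [SimpleGraph.Walk.edges_cons, en_apply, he]
        exact List.mem_cons_self
      · have h1 := conn_of_walk hs (U.erase e) p (by
          intro f hf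
          rw [mem_erase]
          constructor
          · rintro rfl
            rw [en_apply, he] at hf
            exact hc.2 hf
          · rw [mem_filter]
            refine ⟨mem_univ _, ?_⟩
            rw [SimpleGraph.Walk.edges_cons]
            exact List.mem_cons_of_mem _ hf)
        rw [Sym2.eq_iff] at he
        rcases he with ⟨h4, h5⟩ | ⟨h4, h5⟩
        · rw [h4, h5]; exact (conn G (U.erase e)).symm h1
        · rw [h4, h5]; exact h1
    have h2 := long_circuits hq G hG hlow' hneg U hU
    have h3 : U.card ≤ (SimpleGraph.Walk.cons h p).length := by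
      rw [← SimpleGraph.Walk.length_edges]
      calc U.card = (U.map (en hs)).card := (card_map _).symm
        _ ≤ (SimpleGraph.Walk.cons h p).edges.toFinset.card := by
            apply card_le_card
            intro z hz
            rw [mem_map] at hz
            obtain ⟨f, hf, rfl⟩ := hz
            rw [List.mem_toFinset]
            exact (mem_filter.1 hf).2
        _ ≤ _ := List.toFinset_card_le _
    exact lt_of_lt_of_le h2 (by exact_mod_cast h3)

/-! ### 3-connectivity -/

/-- number of edges between two sets -/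
theorem cut_card_union (G : MG (Fin n) (Fin k)) {A B C : Finset (Fin n)} (hBC : Disjoint B C)
    (_ : Disjoint A B) (hAC : Disjoint A C) :
    (cut G A (B ∪ C)).card = (cut G A B).card + (cut G A C).card := by
  rw [← card_union_of_disjoint]
  · congr 1
    ext e
    unfold cut
    simp only [mem_filter, mem_univ, true_and, mem_union]
    tauto
  · rw [disjoint_left]
    intro e he hf
    unfold cut at he hf
    simp only [mem_filter, mem_univ, true_and] at he hf
    rw [disjoint_left] at hBC hAC
    rcases he with ⟨h1, h2⟩ | ⟨h1, h2⟩ <;> rcases hf with ⟨h3, h4⟩ | ⟨h3, h4⟩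
    · exact hBC h2 h4
    · exact hAC h1 h3
    · exact hAC h2 h4
    · exact hBC h1 h3

theorem cut_symm (G : MG (Fin n) (Fin k)) (A B : Finset (Fin n)) : cut G A B = cut G B A := by
  ext e
  unfold cut
  simp only [mem_filter, mem_univ, true_and]
  exact or_comm

theorem cut_star {G : MG (Fin n) (Fin k)} (hs : Simp G) (a : Fin n) :
    (cut G {a} {a}ᶜ).card = dg G univ a := by
  unfold dg
  rw [← card_union_of_disjoint]
  · congr 1
    ext e
    unfold cut
    simp only [mem_filter, mem_univ, true_and, mem_union, mem_singleton, mem_compl]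
    have := hs.loop e
    constructor
    · rintro (h | h)
      · exact Or.inl h.1
      · exact Or.inr h.2
    · rintro (h | h)
      · exact Or.inl ⟨h, fun h2 => this (h.trans h2.symm)⟩
      · exact Or.inr ⟨fun h2 => this (h2.trans h.symm), h⟩
  · rw [disjoint_left]
    intro e he hf
    rw [mem_filter] at he hf
    exact hs.loop e (he.2.trans hf.2.symm)

theorem connected_induce {q : ℝ} (hq : 2 < q) {G : MG (Fin n) (Fin k)} (hs : Simp G)
    (hG : ∀ v, dg G univ v = 3) (hlow : Low q n) (hneg : m G q ⊥ univ < 0) (a b : Fin n) :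
    ((toS G).induce {v | v ≠ a ∧ v ≠ b}).Connected := by
  classical
  have hlow' : Low q (Fintype.card (Fin n)) := by rw [Fintype.card_fin]; exact hlow
  have hcuts := small_cuts hq G hG hlow' hneg
  -- there are at least four vertices
  have hn4 : 4 ≤ n := by
    have h1 := hG a
    rw [← degree_toS hs] at h1
    have h2 := (toS G).degree_lt_card_verts a
    rw [Fintype.card_fin] at h2
    omega
  obtain ⟨c, hc⟩ : ∃ c : Fin n, c ≠ a ∧ c ≠ b := by
    by_contra hcon
    push Not at hcon
    have h1 : (univ : Finset (Fin n)) ⊆ {a, b} := by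
      intro c _
      rw [mem_insert, mem_singleton]
      by_cases h : c = a
      · exact Or.inl h
      · exact Or.inr (hcon c h)
    have h2 := card_le_card h1
    rw [card_univ, Fintype.card_fin] at h2
    have h3 := card_le_two (a := a) (b := b)
    omega
  have hne : Nonempty {v : Fin n | v ≠ a ∧ v ≠ b} := ⟨⟨c, hc⟩⟩
  rw [SimpleGraph.connected_iff]
  refine ⟨?_, hne⟩
  intro u w
  by_contra hnr
  let X : Finset (Fin n) := univ.filter (fun v => ∃ h : v ≠ a ∧ v ≠ b,
    ((toS G).induce {v | v ≠ a ∧ v ≠ b}).Reachable u ⟨v, h⟩)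
  let Y : Finset (Fin n) := univ.filter (fun v => (v ≠ a ∧ v ≠ b) ∧ v ∉ X)
  have hX : ∀ v, v ∈ X ↔ ∃ h : v ≠ a ∧ v ≠ b,
      ((toS G).induce {v | v ≠ a ∧ v ≠ b}).Reachable u ⟨v, h⟩ := fun v => by
    show v ∈ univ.filter _ ↔ _
    rw [mem_filter]
    exact ⟨fun h => h.2, fun h => ⟨mem_univ _, h⟩⟩
  have hY : ∀ v, v ∈ Y ↔ (v ≠ a ∧ v ≠ b) ∧ v ∉ X := fun v => by
    show v ∈ univ.filter _ ↔ _
    rw [mem_filter]
    exact ⟨fun h => h.2, fun h => ⟨mem_univ _, h⟩⟩
  have hXn : X.Nonempty := ⟨u.1, (hX _).2 ⟨u.2, SimpleGraph.Reachable.refl _⟩⟩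
  have hYn : Y.Nonempty := ⟨w.1, (hY _).2 ⟨w.2, fun h => by
    obtain ⟨h1, h2⟩ := (hX _).1 h
    exact hnr h2⟩⟩
  have haX : a ∉ X := fun h => by obtain ⟨h1, -⟩ := (hX _).1 h; exact h1.1 rfl
  have hbX : b ∉ X := fun h => by obtain ⟨h1, -⟩ := (hX _).1 h; exact h1.2 rfl
  have haY : a ∉ Y := fun h => ((hY _).1 h).1.1 rfl
  have hbY : b ∉ Y := fun h => ((hY _).1 h).1.2 rfl
  have hXY : Disjoint X Y := by
    rw [disjoint_left]
    intro v h1 h2
    exact ((hY _).1 h2).2 h1
  have hXYcut : cut G X Y = ∅ := by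
    rw [eq_empty_iff_forall_notMem]
    intro e he
    have key : ∀ s t : Fin n, (toS G).Adj s t → s ∈ X → t ∈ Y → False := by
      intro s t hst hsX htY
      obtain ⟨h1, h2⟩ := (hX _).1 hsX
      obtain ⟨h3, h4⟩ := (hY _).1 htY
      apply h4
      rw [hX]
      refine ⟨h3, h2.trans (SimpleGraph.Adj.reachable ?_)⟩
      exact hst
    unfold cut at he
    rw [mem_filter] at he
    rcases he.2 with h | h
    · exact key _ _ ((toS_adj hs).2 ⟨e, rfl⟩) h.1 h.2
    · exact key _ _ ((toS_adj hs).2 ⟨e, Sym2.eq_swap⟩) h.2 h.1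
  have hXYc : (cut G X Y).card = 0 := by rw [hXYcut, card_empty]
  by_cases hab : a = b
  · subst hab
    have hXc : Xᶜ = Y ∪ {a} := by
      ext v
      rw [mem_compl, mem_union, mem_singleton, hY]
      by_cases hv : v = a
      · simp only [hv, haX, not_false_iff, or_true]
      · simp [hv]
    have hYc : Yᶜ = X ∪ {a} := by
      ext v
      rw [mem_compl, mem_union, mem_singleton, hY]
      by_cases hv : v = a
      · simp [hv]
      · simp [hv]
    have hac : ({a} : Finset (Fin n))ᶜ = X ∪ Y := by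
      ext v
      rw [mem_compl, mem_union, mem_singleton, hY]
      by_cases hv : v = a
      · simp [hv, haX]
      · simp only [hv, not_false_iff, ne_eq, and_self, true_and, true_iff]
        exact em _
    have dXa : Disjoint X {a} := by simpa using haX
    have dYa : Disjoint Y {a} := by simpa using haY
    have e1 := (hcuts X hXn (by rw [hXc]; exact ⟨a, by simp⟩)).1
    have e2 := (hcuts Y hYn (by rw [hYc]; exact ⟨a, by simp⟩)).1
    rw [hXc, cut_card_union G dYa hXY dXa] at e1
    rw [hYc, cut_card_union G dXa hXY.symm dYa, cut_symm G Y X] at e2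
    have e3 := cut_star hs a
    rw [hG, hac, cut_card_union G hXY dXa.symm dYa.symm, cut_symm G {a} X,
      cut_symm G {a} Y] at e3
    omega
  · have hXc : Xᶜ = Y ∪ {a} ∪ {b} := by
      ext v
      rw [mem_compl, mem_union, mem_union, mem_singleton, mem_singleton, hY]
      by_cases hv : v = a
      · simp only [hv, haX, not_false_iff, or_true, true_or]
      · by_cases hv' : v = b
        · simp only [hv', hbX, not_false_iff, or_true]
        · simp [hv, hv']
    have hYc : Yᶜ = X ∪ {a} ∪ {b} := by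
      ext v
      rw [mem_compl, mem_union, mem_union, mem_singleton, mem_singleton, hY]
      by_cases hv : v = a
      · simp [hv]
      · by_cases hv' : v = b
        · simp [hv']
        · simp [hv, hv']
    have hac : ({a} : Finset (Fin n))ᶜ = X ∪ Y ∪ {b} := by
      ext v
      rw [mem_compl, mem_union, mem_union, mem_singleton, mem_singleton, hY]
      by_cases hv : v = a
      · simp [hv, haX, hab]
      · by_cases hv' : v = b
        · simp [hv', Ne.symm hab]
        · simp only [hv, hv', not_false_iff, ne_eq, and_self, true_and, true_iff, or_false]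
          exact em _
    have hbc : ({b} : Finset (Fin n))ᶜ = X ∪ Y ∪ {a} := by
      ext v
      rw [mem_compl, mem_union, mem_union, mem_singleton, mem_singleton, hY]
      by_cases hv : v = a
      · simp [hv, hab]
      · by_cases hv' : v = b
        · simp [hv', hbX, Ne.symm hab]
        · simp only [hv, hv', not_false_iff, ne_eq, and_self, true_and, true_iff, or_false]
          exact em _
    have hXac : (X ∪ {a})ᶜ = Y ∪ {b} := by
      ext v
      rw [mem_compl, mem_union, mem_union, mem_singleton, mem_singleton, hY]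
      by_cases hv : v = a
      · simp [hv, hab]
      · by_cases hv' : v = b
        · simp [hv', hbX, Ne.symm hab]
        · simp [hv, hv']
    have hXbc : (X ∪ {b})ᶜ = Y ∪ {a} := by
      ext v
      rw [mem_compl, mem_union, mem_union, mem_singleton, mem_singleton, hY]
      by_cases hv : v = a
      · simp [hv, haX, hab]
      · by_cases hv' : v = b
        · simp [hv', Ne.symm hab]
        · simp [hv, hv']
    have dXa : Disjoint X {a} := by simpa using haX
    have dYa : Disjoint Y {a} := by simpa using haY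
    have dXb : Disjoint X {b} := by simpa using hbX
    have dYb : Disjoint Y {b} := by simpa using hbY
    have dab : Disjoint ({a} : Finset (Fin n)) {b} := by simpa using hab
    have dba : Disjoint ({b} : Finset (Fin n)) {a} := dab.symm
    have e1 := (hcuts X hXn (by rw [hXc]; exact ⟨a, by simp⟩)).1
    have e2 := (hcuts Y hYn (by rw [hYc]; exact ⟨a, by simp⟩)).1
    have e3 := (hcuts (X ∪ {a}) ⟨a, by simp⟩ (by rw [hXac]; exact ⟨b, by simp⟩)).1
    have e4 := (hcuts (X ∪ {b}) ⟨b, by simp⟩ (by rw [hXbc]; exact ⟨a, by simp⟩)).1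
    have e5 := cut_star hs a
    have e6 := cut_star hs b
    rw [hXc, cut_card_union G (disjoint_union_left.2 ⟨dYb, dab⟩)
      (disjoint_union_right.2 ⟨hXY, dXa⟩) dXb, cut_card_union G dYa hXY dXa] at e1
    rw [hYc, cut_card_union G (disjoint_union_left.2 ⟨dXb, dab⟩)
      (disjoint_union_right.2 ⟨hXY.symm, dYa⟩) dYb, cut_card_union G dXa hXY.symm dYa,
      cut_symm G Y X] at e2
    rw [hXac, cut_symm G (X ∪ {a}), cut_card_union G dXa
      (disjoint_union_left.2 ⟨hXY.symm, dXb.symm⟩) (disjoint_union_left.2 ⟨dYa, dba⟩),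
      cut_symm G (Y ∪ {b}) X, cut_symm G (Y ∪ {b}) {a}, cut_card_union G dYb hXY dXb,
      cut_card_union G dYb dYa.symm dab] at e3
    rw [hXbc, cut_symm G (X ∪ {b}), cut_card_union G dXb
      (disjoint_union_left.2 ⟨hXY.symm, dXa.symm⟩) (disjoint_union_left.2 ⟨dYb, dab⟩),
      cut_symm G (Y ∪ {a}) X, cut_symm G (Y ∪ {a}) {b}, cut_card_union G dYa hXY dXa,
      cut_card_union G dYa dYb.symm dba] at e4
    rw [hG, hac, cut_card_union G (disjoint_union_left.2 ⟨dXb, dYb⟩)
      (disjoint_union_right.2 ⟨dXa.symm, dYa.symm⟩) dab, cut_card_union G hXY dXa.symm dYa.symm,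
      cut_symm G {a} X, cut_symm G {a} Y] at e5
    rw [hG, hbc, cut_card_union G (disjoint_union_left.2 ⟨dXa, dYa⟩)
      (disjoint_union_right.2 ⟨dXb.symm, dYb.symm⟩) dba, cut_card_union G hXY dXb.symm dYb.symm,
      cut_symm G {b} X, cut_symm G {b} Y, cut_symm G {b} {a}] at e6
    rw [cut_symm G {a} Y] at e3
    rw [cut_symm G {b} Y, cut_symm G {b} {a}] at e4
    omega

end

end Pool.Agent.Y358.GC
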