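import Mathlib
import Pool.Agent.Y358.GC.Conv

/-!
If some finite multigraph has a negative flow polynomial at `q > 2`, then so does a simple cubic graph
which is 3-connected and essentially 4-edge-connected and whose cycles are longer than `q`.
-/

set_option autoImplicit false

open Finset

namespace Pool.Agent.Y358.GC

open Pool.Agent.H753R2.FR

/-- the flow polynomial of a multigraph given by the pairs of ends of its edges -/
noncomputable def mflow {n k : ℕ} (ends : Fin k → Fin n × Fin n) (x : ℝ) : ℝ :=
  ∑ A ∈ (univ : Finset (Fin k)).powerset, (-1 : ℝ) ^ (k - A.card) *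
    x ^ (A.card + Nat.card (SimpleGraph.fromRel
      (fun u v : Fin n => ∃ f ∈ A, ends f = (u, v))).ConnectedComponent - n)

/-- there is a simple cubic graph, 3-connected, whose edge cuts with both sides of size at least two have
at least four edges, all of whose cycles are longer than `q`, whose flow polynomial is negative at `q`
and has a real root larger than `q` -/
def Nice (q : ℝ) : Prop :=
  ∃ (n : ℕ) (G : SimpleGraph (Fin n)) (_ : DecidableRel G.Adj),
    (∀ v, G.degree v = 3) ∧
    (∀ a b : Fin n, (G.induce {v | v ≠ a ∧ v ≠ b}).Connected) ∧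
    (∀ X : Finset (Fin n), 2 ≤ X.card → 2 ≤ Xᶜ.card → 4 ≤ (G.interedges X Xᶜ).card) ∧
    (∀ (v : Fin n) (c : G.Walk v v), c.IsCycle → q < c.length) ∧
    flow G q < 0 ∧ ∃ x, q < x ∧ flow G x = 0

theorem continuous_flow {n : ℕ} (G : SimpleGraph (Fin n)) [DecidableRel G.Adj] :
    Continuous (flow G) := by
  unfold flow
  exact continuous_finset_sum _ fun S _ => continuous_const.mul (continuous_pow _)

theorem nice_of_mg {q : ℝ} (hq : 2 < q) {n₀ k₀ : ℕ} (G₀ : MG (Fin n₀) (Fin k₀))
    (hneg₀ : m G₀ q ⊥ univ < 0) : Nice q := by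
  classical
  have hq1 : 1 < q := by linarith
  obtain ⟨n, k, G, hG, hneg, hlow⟩ := exists_min_cubic hq1 G₀ hneg₀
  have hs := simp_of hq G hG hlow hneg
  have hlow' : Low q (Fintype.card (Fin n)) := by rw [Fintype.card_fin]; exact hlow
  have hbl : Bridgeless G := by
    intro e
    by_contra hcon
    have h1 := m_bridge G q hq1 (notMem_erase e univ) ⊥ (by rw [bot_sup_eq]; exact hcon)
    rw [insert_erase (mem_univ e)] at h1
    linarith
  have hn : 0 < n := by
    rcases Nat.eq_zero_or_pos n with h | h
    · exfalso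
      subst h
      have hk : (univ : Finset (Fin k)) = ∅ := by
        rw [univ_eq_empty_iff]
        exact ⟨fun e => (G.x e).elim0⟩
      rw [hk, m_empty] at hneg
      have := pow_pos (by linarith : (0 : ℝ) < q) (cl (⊥ : Setoid (Fin 0)))
      linarith
    · exact h
  have hfneg : ∀ x : ℝ, 1 < x → (flow (toS G) x) * x ^ n = m G x ⊥ univ * (x - 1) ^ k :=
    fun x hx => flow_toS hs hx
  have hFq : flow (toS G) q < 0 := by
    have h1 := hfneg q hq1
    have h2 : 0 < q ^ n := pow_pos (by linarith) n
    have h3 : 0 < (q - 1) ^ k := pow_pos (by linarith) k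
    by_contra hcon
    push Not at hcon
    have h4 := mul_nonneg hcon h2.le
    rw [h1] at h4
    have h5 := mul_neg_of_neg_of_pos hneg h3
    linarith
  refine ⟨n, toS G, inferInstance, ?_, ?_, ?_, ?_, hFq, ?_⟩
  · intro v
    rw [degree_toS hs, hG]
  · intro a b
    exact connected_induce hq hs hG hlow hneg a b
  · intro X hX hXc
    have h1 := small_cuts hq G hG hlow' hneg X (card_pos.1 (by omega)) (card_pos.1 (by omega))
    exact (h1.2 hX hXc).trans (interedges_toS hs X)
  · intro v c hc
    exact cycle_long hq1 hs hG hlow hneg c hc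
  · obtain ⟨C, hC2, hC⟩ := flow_pos
    obtain ⟨y, hy⟩ : ∃ y, y = max C (q + 1) := ⟨_, rfl⟩
    have hyq : q < y := by rw [hy]; exact lt_of_lt_of_le (by linarith) (le_max_right _ _)
    have hy1 : 1 < y := by linarith
    have hFy : 0 < flow (toS G) y := by
      have h1 := hfneg y hy1
      have h0 := hC y (by rw [hy]; exact le_max_left _ _) n k G hn hbl
      have h2 : 0 < y ^ n := pow_pos (by linarith) n
      have h3 : 0 < (y - 1) ^ k := pow_pos (by linarith) k
      have h4 := mul_pos h0 h3
      rw [← h1] at h4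
      by_contra hcon
      push Not at hcon
      have := mul_nonpos_of_nonpos_of_nonneg hcon h2.le
      linarith
    have h5 : (0 : ℝ) ∈ flow (toS G) '' Set.Ioo q y :=
      intermediate_value_Ioo hyq.le (continuous_flow (toS G)).continuousOn ⟨hFq, hFy⟩
    obtain ⟨x, hx, hx0⟩ := h5
    exact ⟨x, hx.1, hx0⟩

theorem nice_of_mflow {q : ℝ} (hq : 2 < q)
    (h : ∃ (n k : ℕ) (ends : Fin k → Fin n × Fin n), mflow ends q < 0) : Nice q := by
  obtain ⟨n, k, ends, hneg⟩ := h
  have hq1 : 1 < q := by linarith
  have h1 := D6b.flow_eval (D6b.gr ends) q hq1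
  have h2 : mflow ends q * q ^ n = m (D6b.gr ends) q ⊥ univ * (q - 1) ^ k := by
    rw [← h1]
    unfold mflow
    simp only [D6b.cl_conn_eq]
  apply nice_of_mg hq (D6b.gr ends)
  have h3 : 0 < q ^ n := pow_pos (by linarith) n
  have h4 : 0 < (q - 1) ^ k := pow_pos (by linarith) k
  by_contra hcon
  push Not at hcon
  have h5 := mul_nonneg hcon h4.le
  rw [← h2] at h5
  have h6 := mul_neg_of_neg_of_pos hneg h3
  linarith

end Pool.Agent.Y358.GC
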