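import Mathlib
import Pool.Agent.H753R2.FR.Defs
import Pool.Agent.H753R2.FR.T_A1
import Pool.Agent.H753R2.FR.T_A2
import Pool.Agent.H753R2.FR.T_E1

set_option autoImplicit false
set_option linter.unusedSectionVars false

/-!
Flow polynomials (as functions of `q`) realised by graphs: adding edges and vertices, chains of bundles
of parallel edges.
-/

namespace Pool.Agent.Y358.GC

open Finset Pool.Agent.H753R2.FR

/-- the function `F` of `q` and of the gluing `r` is the normalised flow polynomial of a graph -/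
def Rz (V : Type) [Fintype V] [DecidableEq V] (F : ℝ → Setoid V → ℝ) : Prop :=
  ∃ (k : ℕ) (G : MG V (Fin k)), ∀ q r, m G q r univ = F q r

section
variable {V : Type} [Fintype V] [DecidableEq V]

theorem m_cons {k : ℕ} (G : MG V (Fin (k + 1))) (q : ℝ) (r : Setoid V) :
    m G q r univ = (1 + 1 / (q - 1)) *
      m (⟨fun i => G.x i.succ, fun i => G.y i.succ⟩ : MG V (Fin k)) q (r ⊔ pr (G.x 0) (G.y 0)) univ
      - 1 / (q - 1) * m (⟨fun i => G.x i.succ, fun i => G.y i.succ⟩ : MG V (Fin k)) q r univ := by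
  have h0 : (univ : Finset (Fin (k + 1))) = insert 0 (univ.map (Fin.succEmb k)) := by
    ext i
    refine Fin.cases ?_ (fun j => ?_) i
    · simp
    · simp
  have h1 : (0 : Fin (k + 1)) ∉ (univ.map (Fin.succEmb k) : Finset (Fin (k + 1))) := by
    simp
  have h2 : ∀ r : Setoid V, m G q r (univ.map (Fin.succEmb k)) =
      m (⟨fun i => G.x i.succ, fun i => G.y i.succ⟩ : MG V (Fin k)) q r univ := fun r =>
    E1.m_comap q (id : V → V) Function.surjective_id (Fin.succEmb k) G
      ⟨fun i => G.x i.succ, fun i => G.y i.succ⟩ (fun _ => rfl) (fun _ => rfl) r univ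
  rw [h0, m_insert G q h1, h2, h2]

theorem Rz.edge {F : ℝ → Setoid V → ℝ} (h : Rz V F) (c d : V) :
    Rz V (fun q r => (1 + 1 / (q - 1)) * F q (r ⊔ pr c d) - 1 / (q - 1) * F q r) := by
  obtain ⟨k, G, hG⟩ := h
  refine ⟨k + 1, ⟨Fin.cons c G.x, Fin.cons d G.y⟩, fun q r => ?_⟩
  rw [m_cons]
  simp only [Fin.cons_succ, Fin.cons_zero]
  have : (⟨fun i => G.x i, fun i => G.y i⟩ : MG V (Fin k)) = G := rfl
  rw [this, hG, hG]

theorem Rz.congr {F F' : ℝ → Setoid V → ℝ} (h : Rz V F) (he : ∀ q r, F q r = F' q r) : Rz V F' := by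
  have : F = F' := funext fun q => funext fun r => he q r
  rw [← this]
  exact h

theorem Rz.edges {F : ℝ → Setoid V → ℝ} (h : Rz V F) (c d : V) (μ : ℕ) :
    Rz V (fun q r => (1 - (-(1 / (q - 1))) ^ μ) * F q (r ⊔ pr c d) + (-(1 / (q - 1))) ^ μ * F q r) := by
  induction μ with
  | zero =>
    refine h.congr fun q r => ?_
    simp
  | succ μ ih =>
    refine (ih.edge c d).congr fun q r => ?_
    rw [sup_assoc, sup_idem, pow_succ]
    ring

theorem Rz.vertex {F : ℝ → Setoid V → ℝ} (h : Rz V F) :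
    ∃ F' : ℝ → Setoid (Option V) → ℝ, Rz (Option V) F' ∧
      (∀ q (a : V) (r : Setoid (Option V)), r none (some a) → F' q r = F q (Setoid.comap some r)) ∧
      (∀ q (a : V), 1 < q → F' q ⊥ = q * F q ⊥) := by
  obtain ⟨k, G, hG⟩ := h
  obtain ⟨G', hG'⟩ : ∃ G' : MG (Option V) (Fin k), G' = ⟨fun i => some (G.x i), fun i => some (G.y i)⟩ :=
    ⟨_, rfl⟩
  have key : ∀ q (a : V) (r : Setoid (Option V)), r none (some a) →
      m G' q r univ = F q (Setoid.comap some r) := by
    intro q a r hr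
    have h1 := E1.m_comap q (fun o : Option V => o.getD a) (fun v => ⟨some v, rfl⟩)
      (Function.Embedding.refl (Fin k)) G' G (fun i => by rw [hG']; rfl) (fun i => by rw [hG']; rfl)
      (Setoid.comap some r) univ
    rw [hG, Finset.map_refl] at h1
    rw [← h1]
    congr 1
    have h2 : ∀ o : Option V, r o (some (o.getD a)) := by
      intro o
      cases o with
      | none => exact hr
      | some v => exact r.refl _
    ext o o'
    rw [Setoid.comap_rel, Setoid.comap_rel]
    constructor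
    · intro h3
      exact r.trans (r.trans (r.symm (h2 o)) h3) (h2 o')
    · intro h3
      exact r.trans (r.trans (h2 o) h3) (r.symm (h2 o'))
  refine ⟨fun q r => m G' q r univ, ⟨k, G', fun _ _ => rfl⟩, key, ?_⟩
  intro q a hq
  have h1 : ¬ ((⊥ : Setoid (Option V)) ⊔ conn G' univ) none (some a) := by
    intro h2
    rw [bot_sup_eq] at h2
    have h3 : conn G' univ ≤ Setoid.ker Option.isSome := by
      rw [conn_le_iff]
      intro e _
      rw [hG']
      rfl
    have h4 : Option.isSome (none : Option V) = Option.isSome (some a) := h3 h2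
    simp at h4
  have h2 := m_disc G' q hq ⊥ h1
  rw [bot_sup_eq, key q a (pr none (some a)) (Or.inr ⟨Or.inl rfl, Or.inr rfl⟩)] at h2
  have h3 : Setoid.comap some (pr none (some a)) = (⊥ : Setoid V) := by
    ext u v
    rw [Setoid.comap_rel]
    show (some u = some v ∨ ((some u = none ∨ some u = some a) ∧ (some v = none ∨ some v = some a))) ↔
      u = v
    constructor
    · rintro (h4 | ⟨h4 | h4, h5 | h5⟩)
      · exact Option.some.inj h4
      · simp at h4
      · simp at h4
      · simp at h5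
      · exact (Option.some.inj h4).trans (Option.some.inj h5).symm
    · rintro rfl
      exact Or.inl rfl
  rw [h3] at h2
  exact h2.symm

end

/-- the pair `(X, Z)` of functions of `q` is realised by a graph with two terminals -/
def Reach (X Z : ℝ → ℝ) : Prop :=
  ∃ (V : Type) (_ : Fintype V) (_ : DecidableEq V) (F : ℝ → Setoid V → ℝ) (a b : V), Rz V F ∧
    ∀ q, 1 < q → F q ⊥ = X q ∧ q * F q (pr a b) - F q ⊥ = Z q

theorem comap_pr_none {V : Type} (a : V) :
    Setoid.comap some (pr none (some a)) = (⊥ : Setoid V) := by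
  ext u v
  rw [Setoid.comap_rel]
  show (some u = some v ∨ ((some u = none ∨ some u = some a) ∧ (some v = none ∨ some v = some a))) ↔
    u = v
  constructor
  · rintro (h4 | ⟨h4 | h4, h5 | h5⟩)
    · exact Option.some.inj h4
    · simp at h4
    · simp at h4
    · simp at h5
    · exact (Option.some.inj h4).trans (Option.some.inj h5).symm
  · rintro rfl
    exact Or.inl rfl

theorem comap_pr_pr {V : Type} (a b : V) :
    Setoid.comap some (pr none (some b) ⊔ pr none (some a)) = (pr a b : Setoid V) := by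
  ext u v
  rw [Setoid.comap_rel, sup_pr_iff]
  have h : ∀ (o o' : Option V) (c : V), (pr none (some c)) o o' ↔
      (o = o' ∨ ((o = none ∨ o = some c) ∧ (o' = none ∨ o' = some c))) := fun _ _ _ => Iff.rfl
  have h' : (pr a b) u v ↔ (u = v ∨ ((u = a ∨ u = b) ∧ (v = a ∨ v = b))) := Iff.rfl
  rw [h, h, h, h, h, h']
  simp only [reduceCtorEq, false_or, Option.some.injEq, true_or, or_true, true_and, and_true, false_and,
    and_false, or_false]
  constructor
  · intro h1
    rcases h1 with (h1 | h1) | ⟨h1, h2 | h2⟩ | ⟨h1 | h1, h2⟩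
    · exact Or.inl h1
    · exact Or.inl (h1.1.trans h1.2.symm)
    · exact Or.inr ⟨Or.inr h1, Or.inl h2.symm⟩
    · exact Or.inl (h1.trans h2.2.symm)
    · exact Or.inr ⟨Or.inl h1, Or.inr h2⟩
    · exact Or.inl (h1.1.trans h2.symm)
  · rintro (h1 | ⟨h1 | h1, h2 | h2⟩)
    · exact Or.inl (Or.inl h1)
    · exact Or.inl (Or.inl (h1.trans h2.symm))
    · exact Or.inr (Or.inr ⟨Or.inl h1, h2⟩)
    · exact Or.inr (Or.inl ⟨h1, Or.inl h2.symm⟩)
    · exact Or.inl (Or.inl (h1.trans h2.symm))

/-- a bundle of `μ` parallel edges is put in series -/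
theorem Reach.link {X Z : ℝ → ℝ} (h : Reach X Z) (μ : ℕ) :
    Reach (fun q => (1 + (q - 1) * (-(1 / (q - 1))) ^ μ) * X q)
      (fun q => (1 - (-(1 / (q - 1))) ^ μ) * Z q) := by
  obtain ⟨V, _, _, F, a, b, hF, hXZ⟩ := h
  obtain ⟨F', hF', h1, h2⟩ := hF.vertex
  refine ⟨Option V, inferInstance, inferInstance, _, none, some b, hF'.edges none (some a) μ, ?_⟩
  intro q hq
  obtain ⟨hX, hZ⟩ := hXZ q hq
  have e0 : F' q ⊥ = q * F q ⊥ := h2 q a hq
  have e1 : F' q (⊥ ⊔ pr none (some a)) = F q ⊥ := by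
    rw [bot_sup_eq, h1 q a _ (Or.inr ⟨Or.inl rfl, Or.inr rfl⟩), comap_pr_none]
  have e2 : F' q (pr none (some b)) = F q ⊥ := by
    rw [h1 q b _ (Or.inr ⟨Or.inl rfl, Or.inr rfl⟩), comap_pr_none]
  have e3 : F' q (pr none (some b) ⊔ pr none (some a)) = F q (pr a b) := by
    rw [h1 q b _ ((le_sup_left : pr none (some b) ≤ pr none (some b) ⊔ pr none (some a))
      (Or.inr ⟨Or.inl rfl, Or.inr rfl⟩)), comap_pr_pr]
  beta_reduce
  rw [e0, e1, e2, e3, ← hX, ← hZ]
  constructor
  · ring
  · ring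

/-- the two terminals are glued -/
theorem Reach.close {X Z : ℝ → ℝ} (h : Reach X Z) :
    ∃ (n k : ℕ) (G : MG (Fin n) (Fin k)), ∀ q, 1 < q → q * m G q ⊥ univ = X q + Z q := by
  obtain ⟨V, _, _, F, a, b, ⟨k, G, hG⟩, hXZ⟩ := h
  have hfin : Finite (Quotient (pr a b)) := Quotient.finite _
  let eV : Quotient (pr a b) ≃ Fin (cl (pr a b)) := Finite.equivFin (Quotient (pr a b))
  let φ : V → Fin (cl (pr a b)) := fun v => eV (Quotient.mk (pr a b) v)
  have hφ : Function.Surjective φ := eV.surjective.comp Quotient.mk_surjective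
  let G' : MG (Fin (cl (pr a b))) (Fin k) := ⟨fun i => φ (G.x i), fun i => φ (G.y i)⟩
  have hr : Setoid.comap φ ⊥ = pr a b := by
    ext c d
    rw [Setoid.comap_rel]
    show φ c = φ d ↔ (pr a b) c d
    simp only [φ, EmbeddingLike.apply_eq_iff_eq]
    exact Quotient.eq
  refine ⟨cl (pr a b), k, G', fun q hq => ?_⟩
  have h1 := E1.m_comap q φ hφ (Function.Embedding.refl (Fin k)) G G' (fun _ => rfl) (fun _ => rfl)
    ⊥ univ
  rw [Finset.map_refl, hr, hG] at h1
  obtain ⟨hX, hZ⟩ := hXZ q hq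
  rw [← h1]
  linarith

end Pool.Agent.Y358.GC
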