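import Mathlib
import Pool.Agent.Y358.GC.Link
import Pool.Agent.H753R2.FR.T_D6b

set_option autoImplicit false
set_option linter.unusedSectionVars false

/-!
A negative value of a flow polynomial at `q₀ > 3` gives flow roots arbitrarily close to `q₀`.
-/

namespace Pool.Agent.Y358.GC

open Finset Pool.Agent.H753R2.FR

section
variable {V I : Type} [DecidableEq V] [DecidableEq I] [Fintype V] [Fintype I]

theorem continuousOn_m (G : MG V I) (r : Setoid V) (S : Finset I) :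
    ContinuousOn (fun q => m G q r S) (Set.Ioi 1) := by
  unfold m wt
  have h0 : ContinuousOn (fun q : ℝ => 1 / (q - 1)) (Set.Ioi 1) := by
    apply ContinuousOn.div continuousOn_const (continuousOn_id.sub continuousOn_const)
    intro x hx
    have : (1 : ℝ) < x := hx
    show x - 1 ≠ 0
    linarith
  refine continuousOn_finsetSum _ fun A _ => ContinuousOn.mul ?_ (continuousOn_pow _)
  refine continuousOn_finsetProd _ fun e _ => ?_
  by_cases he : e ∈ A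
  · simp only [if_pos he]
    exact continuousOn_const.add h0
  · simp only [if_neg he]
    exact h0.neg

end

/-- the initial pair -/
theorem exists_reach {q₀ : ℝ} (hq : 1 < q₀)
    (h : ∃ (k n : ℕ) (G : MG (Fin n) (Fin k)), m G q₀ ⊥ univ < 0) :
    ∃ X Z : ℝ → ℝ, Reach X Z ∧ ContinuousOn X (Set.Ioi 1) ∧ ContinuousOn Z (Set.Ioi 1) ∧
      0 < X q₀ ∧ Z q₀ < 0 := by
  classical
  obtain ⟨k, ⟨n, G, hG⟩, hmin⟩ : ∃ k, (∃ (n : ℕ) (G : MG (Fin n) (Fin k)), m G q₀ ⊥ univ < 0) ∧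
      ∀ k', k' < k → ∀ (n : ℕ) (G : MG (Fin n) (Fin k')), 0 ≤ m G q₀ ⊥ univ := by
    refine ⟨Nat.find h, Nat.find_spec h, ?_⟩
    intro k' hk n G
    by_contra hcon
    exact Nat.find_min h hk ⟨n, G, not_le.1 hcon⟩
  have hq0 : 0 < q₀ := by linarith
  rcases k with _ | k
  · exfalso
    have h1 : (univ : Finset (Fin 0)) = ∅ := by simp
    rw [h1, m_empty] at hG
    have := pow_pos hq0 (cl (⊥ : Setoid (Fin n)))
    linarith
  · rw [m_cons, bot_sup_eq] at hG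
    obtain ⟨G', hG'⟩ : ∃ G' : MG (Fin n) (Fin k), G' = ⟨fun i => G.x i.succ, fun i => G.y i.succ⟩ :=
      ⟨_, rfl⟩
    rw [← hG'] at hG
    have hp : 0 < 1 / (q₀ - 1) := by apply div_pos one_pos; linarith
    have hqp : 1 + 1 / (q₀ - 1) = q₀ * (1 / (q₀ - 1)) := by
      have : q₀ - 1 ≠ 0 := by linarith
      field_simp
      ring
    have hX0 : 0 ≤ m G' q₀ ⊥ univ := hmin k (Nat.lt_succ_self k) n G'
    have hZ : q₀ * m G' q₀ (pr (G.x 0) (G.y 0)) univ - m G' q₀ ⊥ univ < 0 := by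
      rw [hqp] at hG
      by_contra hcon
      push Not at hcon
      have := mul_nonneg hp.le hcon
      linarith
    have hX : 0 < m G' q₀ ⊥ univ := by
      rcases hX0.lt_or_eq with h1 | h1
      · exact h1
      · exfalso
        rw [← h1, sub_zero] at hZ
        obtain ⟨G'', h2, -⟩ := E1.exists_fin q₀ G' (pr (G.x 0) (G.y 0)) univ
        have h3 := hmin _ (by simp) _ G''
        rw [h2] at h3
        have := mul_nonneg hq0.le h3
        linarith
    refine ⟨fun q => m G' q ⊥ univ, fun q => q * m G' q (pr (G.x 0) (G.y 0)) univ - m G' q ⊥ univ,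
      ⟨Fin n, inferInstance, inferInstance, fun q r => m G' q r univ, G.x 0, G.y 0,
        ⟨k, G', fun _ _ => rfl⟩, fun q _ => ⟨rfl, rfl⟩⟩, ?_, ?_, hX, hZ⟩
    · exact continuousOn_m G' ⊥ univ
    · exact (continuousOn_id.mul (continuousOn_m G' _ univ)).sub (continuousOn_m G' ⊥ univ)

theorem Reach.links {X Z : ℝ → ℝ} (h : Reach X Z) (μ b : ℕ) :
    Reach (fun q => (1 + (q - 1) * (-(1 / (q - 1))) ^ μ) ^ b * X q)
      (fun q => (1 - (-(1 / (q - 1))) ^ μ) ^ b * Z q) := by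
  induction b with
  | zero =>
    simpa using h
  | succ b ih =>
    have h1 := ih.link μ
    have e1 : (fun q => (1 + (q - 1) * (-(1 / (q - 1))) ^ μ) *
        ((1 + (q - 1) * (-(1 / (q - 1))) ^ μ) ^ b * X q)) =
        fun q => (1 + (q - 1) * (-(1 / (q - 1))) ^ μ) ^ (b + 1) * X q := by
      funext q
      ring
    have e2 : (fun q => (1 - (-(1 / (q - 1))) ^ μ) * ((1 - (-(1 / (q - 1))) ^ μ) ^ b * Z q)) =
        fun q => (1 - (-(1 / (q - 1))) ^ μ) ^ (b + 1) * Z q := by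
      funext q
      ring
    rw [← e1, ← e2]
    exact h1

/-- the two slopes are different -/
theorem slopes {p₂ p₁ : ℝ} (h0 : 0 < p₂) (h1 : p₂ < p₁) (h2 : p₁ < 1 / 2) :
    (Real.log (1 - p₂ + p₂ ^ 2) - Real.log (1 - p₂)) * (-Real.log (1 - p₁)) <
      (Real.log (1 - p₁ + p₁ ^ 2) - Real.log (1 - p₁)) * (-Real.log (1 - p₂)) := by
  obtain ⟨f, hf⟩ : ∃ f, f = -Real.log (1 - p₂) := ⟨_, rfl⟩
  obtain ⟨g, hg⟩ : ∃ g, g = Real.log (1 - p₂ + p₂ ^ 2) - Real.log (1 - p₂) := ⟨_, rfl⟩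
  have hfp : p₂ ≤ f := by
    have := Real.log_le_sub_one_of_pos (by linarith : 0 < 1 - p₂)
    rw [hf]
    linarith
  have hgp : g * (1 - p₂) ≤ p₂ ^ 2 := by
    have ha : 0 < 1 - p₂ := by linarith
    have hb : 0 < 1 - p₂ + p₂ ^ 2 := by nlinarith
    rw [hg, ← Real.log_div hb.ne' ha.ne']
    have := Real.log_le_sub_one_of_pos (div_pos hb ha)
    have h3 := mul_le_mul_of_nonneg_right this ha.le
    have h4 : ((1 - p₂ + p₂ ^ 2) / (1 - p₂) - 1) * (1 - p₂) = p₂ ^ 2 := by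
      field_simp
      ring
    linarith
  have hd : ∀ p : ℝ, 0 < 1 - p → HasDerivAt
      (fun p => f * (Real.log (1 - p + p ^ 2) - Real.log (1 - p)) + g * Real.log (1 - p))
      (f * ((-1 + 2 * p) / (1 - p + p ^ 2) - (-1) / (1 - p)) + g * ((-1) / (1 - p))) p := by
    intro p hp
    have hb : 0 < 1 - p + p ^ 2 := by nlinarith
    have k1 : HasDerivAt (fun p : ℝ => 1 - p) (-1) p := by
      simpa using (hasDerivAt_id p).const_sub 1
    have k2 : HasDerivAt (fun p : ℝ => p ^ 2) (2 * p) p := by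
      simpa using hasDerivAt_pow 2 p
    have k3 := k1.log hp.ne'
    have k4 := (k1.add k2).log hb.ne'
    exact ((k4.sub k3).const_mul f).add (k3.const_mul g)
  have hmono : StrictMonoOn
      (fun p => f * (Real.log (1 - p + p ^ 2) - Real.log (1 - p)) + g * Real.log (1 - p))
      (Set.Icc p₂ p₁) := by
    apply strictMonoOn_of_deriv_pos (convex_Icc p₂ p₁)
    · intro p hp
      exact (hd p (by linarith [hp.2])).continuousAt.continuousWithinAt
    · intro p hp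
      rw [interior_Icc] at hp
      obtain ⟨hp1, hp2⟩ := hp
      have ha : 0 < 1 - p := by linarith
      have hb : 0 < 1 - p + p ^ 2 := by nlinarith
      rw [(hd p ha).deriv]
      have e1 : f * ((-1 + 2 * p) / (1 - p + p ^ 2) - (-1) / (1 - p)) + g * ((-1) / (1 - p)) =
          (f * (p * (2 - p)) - g * (1 - p + p ^ 2)) / ((1 - p) * (1 - p + p ^ 2)) := by
        field_simp
        ring
      rw [e1]
      apply div_pos _ (mul_pos ha hb)
      have ha2 : 0 < 1 - p₂ := by linarith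
      have h3 : p₂ * (p * (2 - p)) ≤ f * (p * (2 - p)) :=
        mul_le_mul_of_nonneg_right hfp (by nlinarith)
      have h4 : g * (1 - p₂) * (1 - p + p ^ 2) ≤ p₂ ^ 2 * (1 - p + p ^ 2) :=
        mul_le_mul_of_nonneg_right hgp hb.le
      have h5 : (2 - p) * (1 - p) - (1 - p + p ^ 2) = 1 - 2 * p := by ring
      have h6 : (2 - p) * (1 - p) < (2 - p) * (1 - p₂) := by
        apply mul_lt_mul_of_pos_left (by linarith) (by linarith)
      have h7 : 1 - p + p ^ 2 < (2 - p) * (1 - p₂) := by linarith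
      have h8 : p₂ * (1 - p + p ^ 2) < p * ((2 - p) * (1 - p₂)) := by
        have := mul_lt_mul_of_pos_left h7 (by linarith : 0 < p)
        have := mul_lt_mul_of_pos_right hp1 hb
        linarith
      have h9 : p₂ * (p₂ * (1 - p + p ^ 2)) < p₂ * (p * ((2 - p) * (1 - p₂))) :=
        mul_lt_mul_of_pos_left h8 h0
      have h10 : 0 < (f * (p * (2 - p)) - g * (1 - p + p ^ 2)) * (1 - p₂) := by
        have := mul_le_mul_of_nonneg_right h3 ha2.le
        nlinarith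
      exact (mul_pos_iff_of_pos_right ha2).1 h10
  have h3 := hmono (Set.left_mem_Icc.2 h1.le) (Set.right_mem_Icc.2 h1.le) h1
  simp only at h3
  rw [← hf, ← hg]
  have e1 : f * (Real.log (1 - p₂ + p₂ ^ 2) - Real.log (1 - p₂)) + g * Real.log (1 - p₂) = 0 := by
    rw [← hg, hf]
    ring
  rw [e1] at h3
  linarith

/-- the numbers of bundles -/
theorem exists_uv {p₂ p₁ : ℝ} (h0 : 0 < p₂) (h1 : p₂ < p₁) (h2 : p₁ < 1 / 2) :
    ∃ u v : ℕ, (1 - p₁) ^ v < (1 - p₁) ^ u * (1 - p₁ + p₁ ^ 2) ^ v ∧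
      (1 - p₂) ^ u * (1 - p₂ + p₂ ^ 2) ^ v < (1 - p₂) ^ v := by
  have hs := slopes h0 h1 h2
  have ha1 : 0 < 1 - p₁ := by linarith
  have ha2 : 0 < 1 - p₂ := by linarith
  have hb1 : 0 < 1 - p₁ + p₁ ^ 2 := by nlinarith
  have hb2 : 0 < 1 - p₂ + p₂ ^ 2 := by nlinarith
  have hf1 : 0 < -Real.log (1 - p₁) := by
    have := Real.log_neg ha1 (by linarith)
    linarith
  have hf2 : 0 < -Real.log (1 - p₂) := by
    have := Real.log_neg ha2 (by linarith)
    linarith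
  have hg2 : 0 < Real.log (1 - p₂ + p₂ ^ 2) - Real.log (1 - p₂) := by
    have := Real.log_lt_log ha2 (by nlinarith : 1 - p₂ < 1 - p₂ + p₂ ^ 2)
    linarith
  have hlt : (Real.log (1 - p₂ + p₂ ^ 2) - Real.log (1 - p₂)) / (-Real.log (1 - p₂)) <
      (Real.log (1 - p₁ + p₁ ^ 2) - Real.log (1 - p₁)) / (-Real.log (1 - p₁)) := by
    rw [div_lt_div_iff₀ hf2 hf1]
    exact hs
  obtain ⟨r, hr1, hr2⟩ := exists_rat_btwn hlt
  have hr0 : (0 : ℝ) < r := lt_trans (div_pos hg2 hf2) hr1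
  have hr0' : 0 < r := by exact_mod_cast hr0
  have hnum : 0 < r.num := Rat.num_pos.2 hr0'
  obtain ⟨u, hu⟩ : ∃ u : ℕ, (u : ℤ) = r.num := ⟨r.num.toNat, Int.toNat_of_nonneg hnum.le⟩
  have hden : (0 : ℝ) < r.den := by exact_mod_cast r.den_pos
  have hrr : (r : ℝ) = (u : ℝ) / (r.den : ℝ) := by
    rw [Rat.cast_def, ← hu]
    simp
  rw [hrr] at hr1 hr2
  rw [div_lt_div_iff₀ hf2 hden] at hr1
  rw [div_lt_div_iff₀ hden hf1] at hr2
  refine ⟨u, r.den, ?_, ?_⟩
  · rw [← Real.log_lt_log_iff (pow_pos ha1 _) (mul_pos (pow_pos ha1 _) (pow_pos hb1 _)),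
      Real.log_mul (pow_pos ha1 _).ne' (pow_pos hb1 _).ne', Real.log_pow, Real.log_pow, Real.log_pow]
    linarith
  · rw [← Real.log_lt_log_iff (mul_pos (pow_pos ha2 _) (pow_pos hb2 _)) (pow_pos ha2 _),
      Real.log_mul (pow_pos ha2 _).ne' (pow_pos hb2 _).ne', Real.log_pow, Real.log_pow, Real.log_pow]
    linarith

theorem eventually_pow_lt {A B c d : ℝ} (hA : 0 < A) (hAB : A < B) (hd : 0 < d) :
    ∃ N₀ : ℕ, ∀ N, N₀ ≤ N → A ^ N * c < B ^ N * d := by
  have h1 : 1 < B / A := by rwa [one_lt_div hA]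
  have h2 := tendsto_pow_atTop_atTop_of_one_lt h1
  obtain ⟨N₀, hN₀⟩ := Filter.eventually_atTop.1 (h2.eventually_gt_atTop (c / d))
  refine ⟨N₀, fun N hN => ?_⟩
  have h3 := hN₀ N hN
  rw [div_pow, div_lt_div_iff₀ hd (pow_pos hA N)] at h3
  linarith

/-- a negative value at `q₀ > 3` gives a sign change near `q₀` -/
theorem exists_sign_change {q₀ c : ℝ} (hq : 3 < q₀) (hc : q₀ < c)
    (h : ∃ (k n : ℕ) (G : MG (Fin n) (Fin k)), m G q₀ ⊥ univ < 0) :
    ∃ (n k : ℕ) (G : MG (Fin n) (Fin k)) (q₂ : ℝ), q₀ < q₂ ∧ q₂ < c ∧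
      m G q₀ ⊥ univ < 0 ∧ 0 < m G q₂ ⊥ univ := by
  obtain ⟨X, Z, hR, hXc, hZc, hX, hZ⟩ := exists_reach (by linarith) h
  have hmem : Set.Ioi (1 : ℝ) ∈ nhds q₀ := Ioi_mem_nhds (by linarith)
  have hev : ∀ᶠ q in nhds q₀, 0 < X q ∧ Z q < 0 ∧ q < c := by
    have k1 := (hXc.continuousAt hmem).eventually (lt_mem_nhds hX)
    have k2 := (hZc.continuousAt hmem).eventually (gt_mem_nhds hZ)
    have k3 := gt_mem_nhds hc
    filter_upwards [k1, k2, k3] with q a b c using ⟨a, b, c⟩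
  obtain ⟨q₂, hq2, hX2, hZ2, hc2⟩ : ∃ q₂, q₀ < q₂ ∧ 0 < X q₂ ∧ Z q₂ < 0 ∧ q₂ < c := by
    obtain ⟨δ, hδ, hball⟩ := Metric.eventually_nhds_iff.1 hev
    refine ⟨q₀ + δ / 2, by linarith, hball ?_⟩
    rw [Real.dist_eq]
    rw [show q₀ + δ / 2 - q₀ = δ / 2 by ring, abs_of_pos (by linarith)]
    linarith
  obtain ⟨p₁, hp1⟩ : ∃ p, p = 1 / (q₀ - 1) := ⟨_, rfl⟩
  obtain ⟨p₂, hp2⟩ : ∃ p, p = 1 / (q₂ - 1) := ⟨_, rfl⟩
  have hp20 : 0 < p₂ := by rw [hp2]; apply div_pos one_pos; linarith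
  have hp21 : p₂ < p₁ := by
    rw [hp1, hp2]
    apply one_div_lt_one_div_of_lt <;> linarith
  have hp1h : p₁ < 1 / 2 := by
    rw [hp1]
    apply one_div_lt_one_div_of_lt <;> linarith
  obtain ⟨u, v, huv1, huv2⟩ := exists_uv hp20 hp21 hp1h
  have ha1 : 0 < 1 - p₁ := by linarith
  have ha2 : 0 < 1 - p₂ := by linarith
  have hb1 : 0 < 1 - p₁ + p₁ ^ 2 := by nlinarith
  have hb2 : 0 < 1 - p₂ + p₂ ^ 2 := by nlinarith
  obtain ⟨N₁, hN₁⟩ := eventually_pow_lt (c := X q₀) (pow_pos ha1 v) huv1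
    (neg_pos.2 hZ : 0 < -Z q₀)
  obtain ⟨N₂, hN₂⟩ := eventually_pow_lt (c := -Z q₂) (mul_pos (pow_pos ha2 u) (pow_pos hb2 v)) huv2 hX2
  obtain ⟨N, hN⟩ : ∃ N, N = max N₁ N₂ := ⟨_, rfl⟩
  have k1 := hN₁ N (by rw [hN]; exact le_max_left _ _)
  have k2 := hN₂ N (by rw [hN]; exact le_max_right _ _)
  obtain ⟨n, k, G, hG⟩ := ((hR.links 2 (u * N)).links 3 (v * N)).close
  have key : ∀ q p : ℝ, 1 < q → p = 1 / (q - 1) → q * m G q ⊥ univ =
      (1 + p) ^ ((u + v) * N) * (((1 - p) ^ v) ^ N * X q +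
        ((1 - p) ^ u * (1 - p + p ^ 2) ^ v) ^ N * Z q) := by
    intro q p hq hp
    rw [hG q hq, ← hp]
    have hqp : (q - 1) * p = 1 := by
      rw [hp]
      have : q - 1 ≠ 0 := by linarith
      field_simp
    have e1 : 1 + (q - 1) * (-p) ^ 2 = 1 + p := by
      have : (q - 1) * (-p) ^ 2 = ((q - 1) * p) * p := by ring
      rw [this, hqp, one_mul]
    have e2 : 1 + (q - 1) * (-p) ^ 3 = (1 + p) * (1 - p) := by
      have : (q - 1) * (-p) ^ 3 = - (((q - 1) * p) * p ^ 2) := by ring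
      rw [this, hqp]
      ring
    have e3 : 1 - (-p) ^ 2 = (1 + p) * (1 - p) := by ring
    have e4 : 1 - (-p) ^ 3 = (1 + p) * (1 - p + p ^ 2) := by ring
    rw [e1, e2, e3, e4]
    generalize 1 - p + p ^ 2 = w
    generalize 1 - p = t
    generalize 1 + p = s
    rw [mul_pow s t, mul_pow s t, mul_pow s w]
    ring
  have hpow : ∀ p : ℝ, 0 < p → 0 < (1 + p) ^ ((u + v) * N) := fun p hp => pow_pos (by linarith) _
  have hp10 : 0 < p₁ := lt_trans hp20 hp21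
  refine ⟨n, k, G, q₂, hq2, hc2, ?_, ?_⟩
  · have h1 := key q₀ p₁ (by linarith) hp1
    have h2 : ((1 - p₁) ^ v) ^ N * X q₀ + ((1 - p₁) ^ u * (1 - p₁ + p₁ ^ 2) ^ v) ^ N * Z q₀ < 0 := by
      linarith
    have h3 := mul_neg_of_pos_of_neg (hpow p₁ hp10) h2
    rw [← h1] at h3
    exact neg_of_mul_neg_right h3 (by linarith)
  · have h1 := key q₂ p₂ (by linarith) hp2
    have h2 : 0 < ((1 - p₂) ^ v) ^ N * X q₂ + ((1 - p₂) ^ u * (1 - p₂ + p₂ ^ 2) ^ v) ^ N * Z q₂ := by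
      linarith
    have h3 := mul_pos (hpow p₂ hp20) h2
    rw [← h1] at h3
    exact (mul_pos_iff_of_pos_left (by linarith)).1 h3

/-- flow roots near a point `q₀ > 3` at which some flow polynomial is negative -/
theorem exists_root {q₀ c : ℝ} (hq : 3 < q₀) (hc : q₀ < c)
    (h : ∃ (k n : ℕ) (G : MG (Fin n) (Fin k)), m G q₀ ⊥ univ < 0) :
    ∃ (n k : ℕ) (G : MG (Fin n) (Fin k)), Bridgeless G ∧ ∃ x, q₀ < x ∧ x < c ∧ m G x ⊥ univ = 0 := by
  obtain ⟨n, k, G, q₂, h1, h2, h3, h4⟩ := exists_sign_change hq hc h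
  refine ⟨n, k, G, ?_, ?_⟩
  · intro e
    by_contra hcon
    have h5 := m_bridge G q₀ (by linarith) (notMem_erase e univ) ⊥ (by rw [bot_sup_eq]; exact hcon)
    rw [insert_erase (mem_univ e)] at h5
    linarith
  · have hcont : ContinuousOn (fun q => m G q ⊥ univ) (Set.Icc q₀ q₂) :=
      (continuousOn_m G ⊥ univ).mono (fun q hq' => by
        have : q₀ ≤ q := hq'.1
        show (1 : ℝ) < q
        linarith)
    obtain ⟨x, hx, hx0⟩ := intermediate_value_Ioo h1.le hcont ⟨h3, h4⟩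
    exact ⟨x, hx.1, hx.2.trans h2, hx0⟩

end Pool.Agent.Y358.GC
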